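import Pool.Agent.J4.H83.FV.Scale

/-!
# One disk more: `(N + 1) Z (N + 1) ≤ L ^ 2 Z N`
-/

set_option autoImplicit false

open MeasureTheory Set Filter Topology

namespace Pool.Agent.J4.H99.LY

open Pool.Agent.J4.H83.FV

lemma measurableSet_B (N : ℕ) (a L : ℝ) : MeasurableSet (B N a L) := by
  have h : B N a L = (⋂ i, ⋂ k, {x : Fin N → Fin 2 → ℝ | x i k ∈ Icc (0 : ℝ) L}) ∩
      ⋂ i, ⋂ j, ⋂ _ : i ≠ j,
        {x : Fin N → Fin 2 → ℝ | (2 * a) ^ 2 ≤ ∑ k, (x i k - x j k) ^ 2} := by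
    ext x; simp [B]
  rw [h]
  refine (MeasurableSet.iInter fun i => MeasurableSet.iInter fun k => ?_).inter
    (MeasurableSet.iInter fun i => MeasurableSet.iInter fun j => MeasurableSet.iInter fun _ =>
      measurableSet_le measurable_const (by fun_prop))
  exact ((measurable_pi_apply k).comp (measurable_pi_apply i)) measurableSet_Icc

lemma vol_step (N : ℕ) (a : ℝ) {L : ℝ} (hL : 0 ≤ L) :
    volume (B (N + 1) a L) ≤ ENNReal.ofReal (L ^ 2) * volume (B N a L) := by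
  have hmp := volume_preserving_piFinSuccAbove (fun _ : Fin (N + 1) => Fin 2 → ℝ) 0
  set Q : Set (Fin 2 → ℝ) := Set.pi univ fun _ => Icc (0 : ℝ) L with hQ
  have hQm : MeasurableSet Q := MeasurableSet.univ_pi fun _ => measurableSet_Icc
  have hsub : B (N + 1) a L ⊆
      (MeasurableEquiv.piFinSuccAbove (fun _ : Fin (N + 1) => Fin 2 → ℝ) 0) ⁻¹' (Q ×ˢ B N a L) := by
    rintro x ⟨hx1, hx2⟩
    refine ⟨fun k _ => hx1 0 k, fun i k => ?_, fun i j hij => ?_⟩
    · exact hx1 _ k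
    · exact hx2 _ _ (by simpa using hij)
  calc volume (B (N + 1) a L) ≤ volume _ := measure_mono hsub
    _ = volume (Q ×ˢ B N a L) :=
        hmp.measure_preimage (hQm.prod (measurableSet_B N a L)).nullMeasurableSet
    _ = volume Q * volume (B N a L) := by
        rw [Measure.volume_eq_prod, Measure.prod_prod]
    _ = _ := by
        congr 1
        rw [hQ, volume_pi_pi]
        simp only [Real.volume_Icc, sub_zero, Finset.prod_const, Finset.card_univ, Fintype.card_fin]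
        rw [ENNReal.ofReal_pow hL]

lemma vol_ne_top (N : ℕ) {a : ℝ} (ha : 0 < a) {L : ℝ} (hL : 0 ≤ L) : volume (B N a L) ≠ ⊤ := by
  rw [vol_B N ha]
  exact ENNReal.mul_ne_top ENNReal.ofReal_ne_top (A_ne_top N (by positivity))

theorem Z_nonneg {a : ℝ} (ha : 0 < a) (L : ℝ) (N : ℕ) : 0 ≤ Z 2 a L N := by
  rw [Z_eq ha]
  positivity

theorem Z_zero {a : ℝ} (ha : 0 < a) (L : ℝ) : Z 2 a L 0 = 1 := by
  rw [Z_eq ha]
  have : B 0 a L = univ := by
    ext x
    simp [B]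
  rw [this, volume_pi, Measure.pi_of_empty]
  simp

theorem Z_step {a : ℝ} (ha : 0 < a) {L : ℝ} (hL : 0 ≤ L) (N : ℕ) :
    ((N : ℝ) + 1) * Z 2 a L (N + 1) ≤ L ^ 2 * Z 2 a L N := by
  rw [Z_eq ha, Z_eq ha, Nat.factorial_succ]
  push_cast
  have h1 : (volume (B (N + 1) a L)).toReal ≤ L ^ 2 * (volume (B N a L)).toReal := by
    have := ENNReal.toReal_mono (ENNReal.mul_ne_top ENNReal.ofReal_ne_top (vol_ne_top N ha hL))
      (vol_step N a hL)
    rwa [ENNReal.toReal_mul, ENNReal.toReal_ofReal (by positivity)] at this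
  have h2 : (0 : ℝ) < N.factorial := by exact_mod_cast N.factorial_pos
  have h3 : ((N : ℝ) + 1) * ((volume (B (N + 1) a L)).toReal / (((N : ℝ) + 1) * N.factorial)) =
      (volume (B (N + 1) a L)).toReal / N.factorial := by
    field_simp
  rw [h3, ← mul_div_assoc]
  gcongr

lemma B_mono (N : ℕ) (a : ℝ) {L L' : ℝ} (h : L ≤ L') : B N a L ⊆ B N a L' :=
  fun _ hx => ⟨fun i k => ⟨(hx.1 i k).1, (hx.1 i k).2.trans h⟩, hx.2⟩

lemma vol_ne_top' (N : ℕ) {a : ℝ} (ha : 0 < a) (L : ℝ) : volume (B N a L) ≠ ⊤ :=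
  ne_top_of_le_ne_top (vol_ne_top N ha (le_max_right L 0))
    (measure_mono (B_mono N a (le_max_left L 0)))

theorem Z_mono_zero {a : ℝ} (ha : 0 < a) {L L' : ℝ} {N : ℕ} (h : L ≤ L')
    (h0 : Z 2 a L' N = 0) : Z 2 a L N = 0 := by
  have hf : (0 : ℝ) < N.factorial := by exact_mod_cast N.factorial_pos
  have h1 : (volume (B N a L)).toReal ≤ (volume (B N a L')).toReal :=
    ENNReal.toReal_mono (vol_ne_top' N ha L') (measure_mono (B_mono N a h))
  rw [Z_eq ha] at h0 ⊢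
  rw [div_eq_zero_iff] at h0 ⊢
  left
  rcases h0 with h0 | h0
  · rw [h0] at h1
    exact le_antisymm h1 ENNReal.toReal_nonneg
  · exact absurd h0 hf.ne'

end Pool.Agent.J4.H99.LY
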