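import Pool.Agent.J4.H99.LY.Main
import Pool.Agent.J4.H99.LY.Part

/-!
# Means over circles; existence of the polynomials
-/

set_option autoImplicit false

open Filter Topology Real Polynomial

namespace Pool.Agent.J4.H99.LY

lemma mean_eq (P : ℂ[X]) (hP : P ≠ 0) {R : ℝ} (hR : 0 < R) :
    circleAverage (fun z => log ‖P.eval z‖) 0 R = G P R + P.natDegree * log R := by
  have hRc : (R : ℂ) ≠ 0 := by exact_mod_cast hR.ne'
  have e : P.comp (C (R : ℂ) * X) =
      C ((R : ℂ) ^ P.natDegree) * P.scaleRoots ((R⁻¹ : ℝ) : ℂ) := by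
    ext i
    rw [comp_C_mul_X_coeff, coeff_C_mul, coeff_scaleRoots]
    rcases le_or_gt i P.natDegree with h | h
    · have : (R : ℂ) ^ P.natDegree = (R : ℂ) ^ i * (R : ℂ) ^ (P.natDegree - i) := by
        rw [← pow_add]; congr 1; omega
      rw [this]
      push_cast
      rw [inv_pow]
      field_simp
    · rw [coeff_eq_zero_of_natDegree_lt h]; simp
  rw [circleAverage_eq_circleAverage_zero_one]
  have e2 : (fun z : ℂ => log ‖P.eval ((R : ℂ) * z + 0)‖) =
      fun z => log ‖(P.comp (C (R : ℂ) * X)).eval z‖ := by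
    ext z
    rw [eval_comp]
    simp
  have e3 : circleAverage (fun z : ℂ => log ‖P.eval ((R : ℂ) * z + 0)‖) 0 1 =
      (P.comp (C (R : ℂ) * X)).logMahlerMeasure := by
    rw [logMahlerMeasure_def, e2]
  rw [e3, e, logMahlerMeasure_C_mul (pow_ne_zero _ hRc) (scaleRoots_ne_zero hP _)]
  unfold G
  rw [← logMahlerMeasure_eq_log_MahlerMeasure, norm_pow, Complex.norm_real, Real.norm_eq_abs,
    abs_of_pos hR, log_pow]
  ring

variable {Z : ℝ → ℕ → ℝ} {ρ₀ : ℝ} {f : ℝ → ℝ} {C' K : ℝ}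

lemma xi_ne_zero (h : Facts Z ρ₀ f C') {Ξ : ℝ → ℂ[X]} (hΞ : ∀ L N, (Ξ L).coeff N = Z L N) (L : ℝ) :
    Ξ L ≠ 0 := by
  intro h0
  have := hΞ L 0
  rw [h0, coeff_zero, h.one] at this
  norm_num at this

/-- the means over circles -/
theorem mean_ge (h : Facts Z ρ₀ f C') {Ξ : ℝ → ℂ[X]} (hΞ : ∀ L N, (Ξ L).coeff N = Z L N)
    (hK : Tendsto (fun v => f (1 / v) + 2 * log (v - 1 / ρ₀)) (𝓝[>] (1 / ρ₀)) (𝓝 K)) {ε : ℝ}
    (hε : 0 < ε) :
    ∃ T, 1 < T ∧ ∀ t, T ≤ t → ∀ᶠ L in atTop,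
      log (∑ j ∈ Finset.range ((Ξ L).natDegree + 1), Z L j * t ^ j) - ε * L ^ 2 ≤
        circleAverage (fun z => log ‖(Ξ L).eval z‖) 0 t ∧
      circleAverage (fun z => log ‖(Ξ L).eval z‖) 0 t ≤
        log (∑ j ∈ Finset.range ((Ξ L).natDegree + 1), Z L j * t ^ j) := by
  have hε8 : 0 < ε / 8 := by positivity
  obtain ⟨T, hT, hu⟩ := sup_upper h.r0 h.bd hK (ε / 8) hε8
  obtain ⟨T', hT', hl⟩ := sup_lower h.r0 hK (ε / 8) hε8
  refine ⟨max T T', lt_max_of_lt_left hT, fun R hR => ?_⟩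
  have hR1 : 1 < R := hT.trans_le ((le_max_left _ _).trans hR)
  have hR0 : 0 < R := by linarith
  obtain ⟨ρ, r1, r2, r3, r4⟩ := hl R ((le_max_right _ _).trans hR)
  have p1 := pr_le h (hu R ((le_max_left _ _).trans hR))
  filter_upwards [logS_le hΞ h hR0 hε8, term_ge hΞ h r1 r2 hR0 hε8, choose_le hΞ h r1 r2 hε8,
    eventually_gt_atTop 0] with L a1 a3 a5 a9
  have hL : 0 < L ^ 2 := by positivity
  rw [mean_eq _ (xi_ne_zero h hΞ L) hR0]
  constructor
  · have h3 := le_G (hΞ L) (h.nonneg L) hR0 a3.1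
    have b1 : L ^ 2 * (pr ρ₀ f R + ε / 8) ≤ L ^ 2 * (ρ₀ * (log R - 2 * log (log R)) +
        ρ₀ * (2 * log (2 / ρ₀) - 2 - K) + ε / 8 + ε / 8) := by gcongr
    have b2 : L ^ 2 * (ρ₀ * (log R - 2 * log (log R)) + ρ₀ * (2 * log (2 / ρ₀) - 2 - K) - ε / 8 -
        ε / 8) ≤ L ^ 2 * (-ρ * f ρ + ρ * log R - ε / 8) := by gcongr
    have b3 : L ^ 2 * ((ρ₀ - ρ) * (1 + log (ρ₀ / (ρ₀ - ρ))) + ε / 8) ≤
        L ^ 2 * (ε / 8 + ε / 8) := by gcongr
    have b4 := mul_pos hL hε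
    have b5 := a3.2
    linarith
  · have h2 := G_le (hΞ L) (h.nonneg L) hR0 a3.1
    linarith

/-- the value of the polynomial on the positive axis -/
lemma eval_eq {P : ℂ[X]} {c : ℕ → ℝ} (hc : ∀ k, P.coeff k = c k) (hc0 : ∀ k, 0 ≤ c k) {z : ℝ}
    (hz : 0 ≤ z) :
    ‖P.eval (z : ℂ)‖ = ∑ j ∈ Finset.range (P.natDegree + 1), c j * z ^ j := by
  rw [eval_eq_sum_range]
  have : ∑ i ∈ Finset.range (P.natDegree + 1), P.coeff i * (z : ℂ) ^ i =
      ((∑ j ∈ Finset.range (P.natDegree + 1), c j * z ^ j : ℝ) : ℂ) := by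
    push_cast
    exact Finset.sum_congr rfl fun i _ => by rw [hc]
  rw [this, Complex.norm_real, Real.norm_eq_abs, abs_of_nonneg]
  exact Finset.sum_nonneg fun i _ => mul_nonneg (hc0 i) (by positivity)

/-- existence and uniqueness of the polynomial -/
theorem exists_xi (h : Facts Z ρ₀ f C') (hmono : ∀ L L' N, L ≤ L' → Z L' N = 0 → Z L N = 0)
    (L : ℝ) : ∃! P : ℂ[X], ∀ N, P.coeff N = Z L N := by
  obtain ⟨L', h1, h2⟩ := ((deg_le h one_pos).and (eventually_ge_atTop L)).exists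
  obtain ⟨M, hM⟩ := exists_nat_gt ((ρ₀ + 1) * L' ^ 2)
  have hz : ∀ N, M ≤ N → Z L N = 0 := by
    intro N hN
    apply hmono L L' N h2
    by_contra hne
    have h3 := h1 N hne
    have : (M : ℝ) ≤ N := by exact_mod_cast hN
    linarith
  refine ⟨∑ j ∈ Finset.range M, monomial j (Z L j : ℂ), fun N => ?_, fun Q hQ => ?_⟩
  · rw [finsetSum_coeff]
    simp only [coeff_monomial]
    rcases lt_or_ge N M with h4 | h4
    · rw [Finset.sum_ite_eq' (Finset.range M) N]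
      rw [if_pos (Finset.mem_range.2 h4)]
    · rw [hz N h4, Finset.sum_eq_zero]
      · simp
      · intro j hj
        rw [if_neg]
        have := Finset.mem_range.1 hj
        omega
  · ext N
    rw [hQ, finsetSum_coeff]
    simp only [coeff_monomial]
    rcases lt_or_ge N M with h4 | h4
    · rw [Finset.sum_ite_eq' (Finset.range M) N, if_pos (Finset.mem_range.2 h4)]
    · rw [hz N h4, Finset.sum_eq_zero]
      · simp
      · intro j hj
        rw [if_neg]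
        have := Finset.mem_range.1 hj
        omega

end Pool.Agent.J4.H99.LY
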