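import Mathlib

/-!
# The facts on the partition function which are used
-/

set_option autoImplicit false

open Filter Topology Real

namespace Pool.Agent.J4.H99.LY

/-- The thermodynamic limit: squares of side `L → ∞` and `N / L² → ρ`. -/
def Thermo (ρ : ℝ) (L : ℕ → ℝ) (N : ℕ → ℕ) : Prop :=
  Tendsto L atTop atTop ∧ Tendsto (fun k => (N k : ℝ) / L k ^ 2) atTop (𝓝 ρ)

structure Facts (Z : ℝ → ℕ → ℝ) (ρ₀ : ℝ) (f : ℝ → ℝ) (C : ℝ) : Prop where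
  r0 : 0 < ρ₀
  nonneg : ∀ L N, 0 ≤ Z L N
  one : ∀ L, Z L 0 = 1
  step : ∀ L, 0 ≤ L → ∀ N : ℕ, ((N : ℝ) + 1) * Z L (N + 1) ≤ L ^ 2 * Z L N
  zero : ∀ ρ, ρ₀ < ρ → ∀ L N, Thermo ρ L N → ∀ᶠ k in atTop, Z (L k) (N k) = 0
  fe : ∀ ρ, 0 < ρ → ρ < ρ₀ → ∀ (L : ℕ → ℝ) (N : ℕ → ℕ), Thermo ρ L N →
    Tendsto (fun k => -(1 / (N k : ℝ)) * log (Z (L k) (N k))) atTop (𝓝 (f ρ))
  bd : ∀ ρ, 0 < ρ → ρ < ρ₀ → |f ρ - (log ρ - 2 * log (1 - ρ / ρ₀))| ≤ C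

end Pool.Agent.J4.H99.LY
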