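import Pool.Agent.J4.H99.LY.Facts

/-! # Project LY (helper99), piece LIMA (helper30) -/

set_option autoImplicit false

open Filter Topology Real

namespace Pool.Agent.J4.H99.LY

variable {Z : ℝ → ℕ → ℝ} {ρ₀ : ℝ} {f : ℝ → ℝ} {C : ℝ}

namespace LimA

/-- integer parts -/
theorem thermo_floor {ρ : ℝ} (hρ : 0 ≤ ρ) {L : ℕ → ℝ} (hL : Tendsto L atTop atTop) :
    Thermo ρ L (fun k => ⌊ρ * L k ^ 2⌋₊) := by
  refine ⟨hL, ?_⟩
  have h1 : Tendsto (fun k => L k ^ 2) atTop atTop := (tendsto_pow_atTop two_ne_zero).comp hL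
  exact (tendsto_nat_floor_mul_div_atTop hρ).comp h1

theorem zero_of_le (h : Facts Z ρ₀ f C) {L : ℝ} (hL : 0 ≤ L) {N M : ℕ} (hNM : N ≤ M)
    (hN : Z L N = 0) : Z L M = 0 := by
  induction M, hNM using Nat.le_induction with
  | base => exact hN
  | succ M _ ih =>
    have h1 := h.step L hL M
    rw [ih, mul_zero] at h1
    have h2 := h.nonneg L (M + 1)
    have h3 : (0 : ℝ) < (M : ℝ) + 1 := by positivity
    nlinarith

end LimA

open LimA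

/-- degree, upper bound -/
theorem deg_le (h : Facts Z ρ₀ f C) {ε : ℝ} (hε : 0 < ε) :
    ∀ᶠ L in atTop, ∀ N : ℕ, Z L N ≠ 0 → (N : ℝ) ≤ (ρ₀ + ε) * L ^ 2 := by
  by_contra hcon
  rw [not_eventually] at hcon
  obtain ⟨L, hL, hbad⟩ := exists_seq_forall_of_frequently hcon
  push Not at hbad
  choose N hN1 hN2 using hbad
  have hr := h.r0
  have hT := thermo_floor (ρ := ρ₀ + ε) (by positivity) hL
  have h1 := h.zero (ρ₀ + ε) (by linarith) _ _ hT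
  have h2 := hL.eventually_ge_atTop 0
  obtain ⟨k, hk1, hk2⟩ := (h1.and h2).exists
  refine hN1 k (zero_of_le h hk2 ?_ hk1)
  exact Nat.floor_le_of_le (hN2 k).le

/-- positivity -/
theorem pos (h : Facts Z ρ₀ f C) {ε : ℝ} (hε : 0 < ε) :
    ∀ᶠ L in atTop, ∀ N : ℕ, (N : ℝ) ≤ (ρ₀ - ε) * L ^ 2 → 0 < Z L N := by
  have hr := h.r0
  -- a density near `ρ₀` with `f ρ > 0`
  obtain ⟨ρ, hρ1, hρ2, hρ3, hρ4⟩ : ∃ ρ, 0 < ρ ∧ ρ < ρ₀ ∧ ρ₀ - ε ≤ ρ ∧ 0 < f ρ := by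
    obtain ⟨M, hM⟩ : ∃ M : ℝ, M = |C| + |log (ρ₀ / 2)| + 1 := ⟨_, rfl⟩
    have hM0 : 0 < M := by rw [hM]; positivity
    obtain ⟨s, hs⟩ : ∃ s : ℝ, s = min (min (1 / 2) (ε / ρ₀)) (exp (-M)) := ⟨_, rfl⟩
    have hs0 : 0 < s := by rw [hs]; positivity
    have hs1 : s ≤ 1 / 2 := by rw [hs]; exact (min_le_left _ _).trans (min_le_left _ _)
    have hs2 : s ≤ ε / ρ₀ := by rw [hs]; exact (min_le_left _ _).trans (min_le_right _ _)
    have hs3 : s ≤ exp (-M) := by rw [hs]; exact min_le_right _ _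
    have hs4 : s * ρ₀ ≤ ε := by rwa [le_div_iff₀ hr] at hs2
    have hls : log s ≤ -M := by
      rw [← log_exp (-M)]
      exact log_le_log hs0 hs3
    have e1 : 1 - ρ₀ * (1 - s) / ρ₀ = s := by field_simp; ring
    have hp : 0 < ρ₀ * (1 - s) := mul_pos hr (by linarith)
    have hlt : ρ₀ * (1 - s) < ρ₀ := by nlinarith
    refine ⟨ρ₀ * (1 - s), hp, hlt, by nlinarith, ?_⟩
    have h1 := h.bd _ hp hlt
    rw [e1] at h1
    have h2 : log (ρ₀ / 2) ≤ log (ρ₀ * (1 - s)) := log_le_log (by positivity) (by nlinarith)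
    have h3 := (abs_le.1 h1).1
    have h4 := neg_abs_le (log (ρ₀ / 2))
    have h5 := le_abs_self C
    linarith
  by_contra hcon
  rw [not_eventually] at hcon
  obtain ⟨L, hL, hbad⟩ := exists_seq_forall_of_frequently hcon
  push Not at hbad
  choose N hN1 hN2 using hbad
  have hT := thermo_floor hρ1.le hL
  have hfe := h.fe ρ hρ1 hρ2 _ _ hT
  have h2 := hL.eventually_ge_atTop 0
  have h3 : Tendsto (fun k => -(1 / ((⌊ρ * L k ^ 2⌋₊ : ℕ) : ℝ)) * log (Z (L k) ⌊ρ * L k ^ 2⌋₊))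
      atTop (𝓝 0) := by
    refine Tendsto.congr' ?_ tendsto_const_nhds
    filter_upwards [h2] with k hk
    have h4 : Z (L k) (N k) = 0 := le_antisymm (hN2 k) (h.nonneg _ _)
    have h5 : N k ≤ ⌊ρ * L k ^ 2⌋₊ := by
      refine Nat.le_floor ((hN1 k).trans ?_)
      exact mul_le_mul_of_nonneg_right hρ3 (sq_nonneg _)
    rw [zero_of_le h hk h5 h4, log_zero, mul_zero]
  have h6 := tendsto_nhds_unique hfe h3
  linarith

theorem lower (h : Facts Z ρ₀ f C) {ρ : ℝ} (h1 : 0 < ρ) (h2 : ρ < ρ₀) {ε : ℝ} (hε : 0 < ε) :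
    ∀ᶠ L : ℝ in atTop, exp (L ^ 2 * (-ρ * f ρ - ε)) ≤ Z L ⌊ρ * L ^ 2⌋₊ := by
  have hpos : ∀ᶠ L : ℝ in atTop, 0 < Z L ⌊ρ * L ^ 2⌋₊ := by
    filter_upwards [pos h (ε := ρ₀ - ρ) (by linarith)] with L hL
    refine hL _ ?_
    rw [sub_sub_cancel]
    exact Nat.floor_le (by positivity)
  by_contra hcon
  rw [not_eventually] at hcon
  obtain ⟨L, hL, hbad⟩ := exists_seq_forall_of_frequently (hcon.and_eventually hpos)
  have hT := thermo_floor h1.le hL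
  have hfe := h.fe ρ h1 h2 _ _ hT
  -- the comparison
  have hinv : Tendsto (fun k => (((⌊ρ * L k ^ 2⌋₊ : ℕ) : ℝ) / L k ^ 2)⁻¹ * (ρ * f ρ + ε)) atTop
      (𝓝 (ρ⁻¹ * (ρ * f ρ + ε))) := (hT.2.inv₀ h1.ne').mul_const _
  have hN : Tendsto (fun k => ⌊ρ * L k ^ 2⌋₊) atTop atTop := by
    refine tendsto_nat_floor_atTop.comp ?_
    exact Tendsto.const_mul_atTop h1 ((tendsto_pow_atTop two_ne_zero).comp hL)
  have hle : ∀ᶠ k in atTop, (((⌊ρ * L k ^ 2⌋₊ : ℕ) : ℝ) / L k ^ 2)⁻¹ * (ρ * f ρ + ε) ≤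
      -(1 / ((⌊ρ * L k ^ 2⌋₊ : ℕ) : ℝ)) * log (Z (L k) ⌊ρ * L k ^ 2⌋₊) := by
    filter_upwards [hN.eventually_ge_atTop 1, hL.eventually_gt_atTop 0] with k hk1 hk2
    obtain ⟨b1, b2⟩ := hbad k
    rw [not_le] at b1
    have hNk : (0 : ℝ) < ((⌊ρ * L k ^ 2⌋₊ : ℕ) : ℝ) := by exact_mod_cast hk1
    have hlog := (log_lt_log b2 b1).le
    rw [log_exp] at hlog
    have e1 : (((⌊ρ * L k ^ 2⌋₊ : ℕ) : ℝ) / L k ^ 2)⁻¹ * (ρ * f ρ + ε) =
        -(1 / ((⌊ρ * L k ^ 2⌋₊ : ℕ) : ℝ)) * (L k ^ 2 * (-ρ * f ρ - ε)) := by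
      field_simp
      ring
    rw [e1]
    exact mul_le_mul_of_nonpos_left hlog (by rw [neg_nonpos]; positivity)
  have h3 := le_of_tendsto_of_tendsto hinv hfe hle
  rw [mul_add, inv_mul_cancel_left₀ h1.ne'] at h3
  have h4 : 0 < ρ⁻¹ * ε := by positivity
  linarith

end Pool.Agent.J4.H99.LY
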