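import Pool.Agent.J4.H99.LY.Facts

/-!
# The uniform upper bound of the terms of the grand canonical partition function
-/

set_option autoImplicit false

open Filter Topology Real

namespace Pool.Agent.J4.H99.LY

variable {Z : ℝ → ℕ → ℝ} {ρ₀ : ℝ} {f : ℝ → ℝ} {C : ℝ}

namespace LimB

/-- iterate of `step` -/
theorem step_iter (h : Facts Z ρ₀ f C) {L : ℝ} (hL : 0 ≤ L) (N k : ℕ) :
    ((N + k).factorial : ℝ) * Z L (N + k) ≤ (N.factorial : ℝ) * (L ^ 2) ^ k * Z L N := by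
  induction k with
  | zero => simp
  | succ k ih =>
    have h1 := h.step L hL (N + k)
    have h2 : ((N + (k + 1)).factorial : ℝ) =
        (((N + k : ℕ) : ℝ) + 1) * ((N + k).factorial : ℝ) := by
      rw [← add_assoc, Nat.factorial_succ]; push_cast; ring
    have h3 : Z L (N + (k + 1)) = Z L (N + k + 1) := by rw [add_assoc]
    rw [h2, h3]
    have h4 : (0 : ℝ) ≤ ((N + k).factorial : ℝ) := Nat.cast_nonneg _
    calc (((N + k : ℕ) : ℝ) + 1) * ((N + k).factorial : ℝ) * Z L (N + k + 1)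
        = ((N + k).factorial : ℝ) * ((((N + k : ℕ) : ℝ) + 1) * Z L (N + k + 1)) := by ring
      _ ≤ ((N + k).factorial : ℝ) * (L ^ 2 * Z L (N + k)) := mul_le_mul_of_nonneg_left h1 h4
      _ = L ^ 2 * (((N + k).factorial : ℝ) * Z L (N + k)) := by ring
      _ ≤ L ^ 2 * ((N.factorial : ℝ) * (L ^ 2) ^ k * Z L N) :=
          mul_le_mul_of_nonneg_left ih (by positivity)
      _ = _ := by ring

theorem bnd (h : Facts Z ρ₀ f C) {L : ℝ} (hL : 0 ≤ L) (N : ℕ) {z t : ℝ} (hz : 0 < z)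
    (ht : 0 < t) : Z L N * z ^ N ≤ exp (t * z * L ^ 2 - N * log t) := by
  have h1 := step_iter h hL 0 N
  rw [zero_add, h.one] at h1
  have hf : (0 : ℝ) < (N.factorial : ℝ) := by exact_mod_cast Nat.factorial_pos N
  have h2 : Z L N ≤ (L ^ 2) ^ N / (N.factorial : ℝ) := by
    rw [le_div_iff₀ hf]
    simp at h1
    linarith
  have h3 : (t * z * L ^ 2) ^ N / (N.factorial : ℝ) ≤ exp (t * z * L ^ 2) :=
    Real.pow_div_factorial_le_exp _ (by positivity) N
  have h4 : exp (t * z * L ^ 2 - N * log t) = exp (t * z * L ^ 2) / t ^ N := by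
    rw [Real.exp_sub, Real.exp_nat_mul, Real.exp_log ht]
  rw [h4, le_div_iff₀ (by positivity)]
  calc Z L N * z ^ N * t ^ N ≤ (L ^ 2) ^ N / (N.factorial : ℝ) * z ^ N * t ^ N := by
        gcongr
    _ = (t * z * L ^ 2) ^ N / (N.factorial : ℝ) := by
        rw [mul_pow, mul_pow]; ring
    _ ≤ _ := h3

theorem ratio (h : Facts Z ρ₀ f C) {L : ℝ} (hL : 0 < L) (N m : ℕ) (hN : 1 ≤ N)
    (hZ : 0 < Z L (N + m)) : 0 < Z L N ∧
      log (Z L (N + m)) ≤ log (Z L N) + m * log (L ^ 2 / N) := by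
  have h1 := step_iter h hL.le N m
  have hf : (0 : ℝ) < (N.factorial : ℝ) := by exact_mod_cast Nat.factorial_pos N
  have hN0 : (0 : ℝ) < N := by exact_mod_cast hN
  have h2 : (N.factorial : ℝ) * (N : ℝ) ^ m ≤ ((N + m).factorial : ℝ) := by
    have := Nat.factorial_mul_pow_le_factorial (m := N) (n := m)
    have h3 : N.factorial * N ^ m ≤ (N + m).factorial :=
      le_trans (Nat.mul_le_mul_left _ (Nat.pow_le_pow_left (Nat.le_succ N) m)) this
    exact_mod_cast h3
  have h3 : (N.factorial : ℝ) * (N : ℝ) ^ m * Z L (N + m) ≤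
      (N.factorial : ℝ) * (L ^ 2) ^ m * Z L N :=
    (mul_le_mul_of_nonneg_right h2 hZ.le).trans h1
  have h4 : (N : ℝ) ^ m * Z L (N + m) ≤ (L ^ 2) ^ m * Z L N := by
    have : (N.factorial : ℝ) * ((N : ℝ) ^ m * Z L (N + m)) ≤
        (N.factorial : ℝ) * ((L ^ 2) ^ m * Z L N) := by
      calc _ = (N.factorial : ℝ) * (N : ℝ) ^ m * Z L (N + m) := by ring
        _ ≤ _ := h3
        _ = _ := by ring
    exact le_of_mul_le_mul_left this hf
  have hZN : 0 < Z L N := by
    rcases (h.nonneg L N).lt_or_eq with h5 | h5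
    · exact h5
    · rw [← h5, mul_zero] at h4
      have : 0 < (N : ℝ) ^ m * Z L (N + m) := by positivity
      linarith
  refine ⟨hZN, ?_⟩
  have h5 : Z L (N + m) ≤ (L ^ 2 / N) ^ m * Z L N := by
    rw [div_pow, div_mul_eq_mul_div, le_div_iff₀ (by positivity)]
    linarith
  have h6 := Real.log_le_log hZ h5
  rw [Real.log_mul (by positivity) hZN.ne', Real.log_pow] at h6
  linarith

theorem P_nonneg (h : Facts Z ρ₀ f C) {z : ℝ} {P : ℝ}
    (hP : ∀ ρ, 0 < ρ → ρ < ρ₀ → -ρ * f ρ + ρ * log z ≤ P) : 0 ≤ P := by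
  have h0 := h.r0
  have hlim : Tendsto (fun ρ : ℝ => -(ρ * (2 * log 2 + C + |log z|))) (𝓝[>] 0) (𝓝 0) := by
    have : Tendsto (fun ρ : ℝ => -(ρ * (2 * log 2 + C + |log z|))) (𝓝 0)
        (𝓝 (-(0 * (2 * log 2 + C + |log z|)))) :=
      Continuous.tendsto (by fun_prop) 0
    simp only [zero_mul, neg_zero] at this
    exact this.mono_left nhdsWithin_le_nhds
  refine le_of_tendsto hlim ?_
  have hm : 0 < min 1 (ρ₀ / 2) := by positivity
  filter_upwards [Ioo_mem_nhdsGT hm] with ρ hρ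
  obtain ⟨h1, h2⟩ := hρ
  have h3 : ρ < 1 := lt_of_lt_of_le h2 (min_le_left _ _)
  have h4 : ρ < ρ₀ / 2 := lt_of_lt_of_le h2 (min_le_right _ _)
  have h5 := hP ρ h1 (by linarith)
  have h6 := (abs_le.1 (h.bd ρ h1 (by linarith))).2
  have h7 : log ρ ≤ 0 := Real.log_nonpos h1.le h3.le
  have h8 : -log 2 ≤ log (1 - ρ / ρ₀) := by
    rw [← Real.log_inv]
    apply Real.log_le_log (by norm_num)
    have : ρ / ρ₀ ≤ 1 / 2 := by
      rw [div_le_iff₀ h0]; linarith
    norm_num at this ⊢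
    linarith
  have h9 : f ρ ≤ 2 * log 2 + C := by linarith
  have h10 := neg_abs_le (log z)
  have h11 : ρ * f ρ ≤ ρ * (2 * log 2 + C) := mul_le_mul_of_nonneg_left h9 h1.le
  have h12 : ρ * (-|log z|) ≤ ρ * log z := mul_le_mul_of_nonneg_left h10 h1.le
  linarith

end LimB

open LimB in
theorem upper (h : Facts Z ρ₀ f C) {z : ℝ} (hz : 0 < z) {P : ℝ}
    (hP : ∀ ρ, 0 < ρ → ρ < ρ₀ → -ρ * f ρ + ρ * log z ≤ P) {ε : ℝ} (hε : 0 < ε) :
    ∀ᶠ L in atTop, ∀ N : ℕ, Z L N * z ^ N ≤ exp (L ^ 2 * (P + ε)) := by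
  by_contra hcon
  rw [Filter.not_eventually] at hcon
  have hP0 : 0 ≤ P := P_nonneg h hP
  have hr0 := h.r0
  have hex : ∀ k : ℕ, ∃ L : ℝ, (k : ℝ) + 1 ≤ L ∧
      ∃ N : ℕ, exp (L ^ 2 * (P + ε)) < Z L N * z ^ N := by
    intro k
    obtain ⟨L, hL, hN⟩ := (Filter.frequently_atTop.1 hcon) ((k : ℝ) + 1)
    push Not at hN
    exact ⟨L, hL, hN⟩
  choose L₁ hL₁ N₁ hN₁ using hex
  have hx : ∀ k, (N₁ k : ℝ) / L₁ k ^ 2 ∈ Set.Icc 0 (exp 1 * z) := by
    intro k
    have hLk : (0 : ℝ) < L₁ k := by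
      have := hL₁ k
      have h2 : (0 : ℝ) ≤ k := Nat.cast_nonneg k
      linarith
    refine ⟨by positivity, ?_⟩
    have h1 := (hN₁ k).trans_le (bnd h hLk.le (N₁ k) hz (Real.exp_pos 1))
    rw [Real.exp_lt_exp, Real.log_exp, mul_one] at h1
    rw [div_le_iff₀ (by positivity)]
    have : 0 ≤ L₁ k ^ 2 * (P + ε) := by positivity
    linarith
  obtain ⟨ρ, hρ, φ, hφ, hlim⟩ := isCompact_Icc.tendsto_subseq hx
  have hLt : Tendsto L₁ atTop atTop :=
    tendsto_atTop_mono hL₁ (tendsto_atTop_add_const_right _ _ tendsto_natCast_atTop_atTop)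
  have hL' : Tendsto (L₁ ∘ φ) atTop atTop := hLt.comp hφ.tendsto_atTop
  obtain ⟨L, hLdef⟩ : ∃ L : ℕ → ℝ, L = L₁ ∘ φ := ⟨_, rfl⟩
  obtain ⟨N, hNdef⟩ : ∃ N : ℕ → ℕ, N = N₁ ∘ φ := ⟨_, rfl⟩
  have hL : Tendsto L atTop atTop := by rw [hLdef]; exact hL'
  have hLpos : ∀ k, 0 < L k := by
    intro k
    rw [hLdef]
    have := hL₁ (φ k)
    have h2 : (0 : ℝ) ≤ φ k := Nat.cast_nonneg _
    simp only [Function.comp]
    linarith
  have hN : ∀ k, exp (L k ^ 2 * (P + ε)) < Z (L k) (N k) * z ^ N k := by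
    intro k; rw [hLdef, hNdef]; exact hN₁ (φ k)
  have hxl : Tendsto (fun k => (N k : ℝ) / L k ^ 2) atTop (𝓝 ρ) := by
    rw [hLdef, hNdef]; exact hlim
  clear hlim hL' hLt hx
  have hZpos : ∀ k, 0 < Z (L k) (N k) := by
    intro k
    have := (Real.exp_pos _).trans (hN k)
    exact (pos_iff_pos_of_mul_pos this).2 (by positivity)
  rcases lt_or_ge ρ₀ ρ with hgt | hle
  · obtain ⟨k, hk⟩ := (h.zero ρ hgt L N ⟨hL, hxl⟩).exists
    exact (hZpos k).ne' hk
  rcases hρ.1.lt_or_eq with hpos | hzero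
  · -- `0 < ρ ≤ ρ₀`
    set A : ℝ := |log z| + |log (ρ / 2)| + 1 with hA
    have hA0 : 0 < A := by positivity
    set η : ℝ := min (ρ / 2) (ε / (2 * A)) with hη
    have hη0 : 0 < η := by positivity
    have hη1 : η ≤ ρ / 2 := min_le_left _ _
    have hη2 : η * A ≤ ε / 2 := by
      have : η ≤ ε / (2 * A) := min_le_right _ _
      calc η * A ≤ ε / (2 * A) * A := mul_le_mul_of_nonneg_right this hA0.le
        _ = ε / 2 := by field_simp
    have hρ' : 0 < ρ - η := by linarith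
    have hρ'' : ρ - η < ρ₀ := by linarith
    set m : ℕ → ℕ := fun k => ⌊η * L k ^ 2⌋₊ with hm
    have hL2 : Tendsto (fun k => L k ^ 2) atTop atTop :=
      (tendsto_pow_atTop (two_ne_zero)).comp hL
    have hml : Tendsto (fun k => (m k : ℝ) / L k ^ 2) atTop (𝓝 η) :=
      (tendsto_nat_floor_mul_div_atTop hη0.le).comp hL2
    have hdl : Tendsto (fun k => (N k : ℝ) / L k ^ 2 - (m k : ℝ) / L k ^ 2) atTop (𝓝 (ρ - η)) :=
      hxl.sub hml
    have hlt : ∀ᶠ k in atTop, m k < N k := by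
      filter_upwards [hdl.eventually (lt_mem_nhds hρ')] with k hk
      have : 0 < ((N k : ℝ) - m k) / L k ^ 2 := by rw [sub_div]; exact hk
      have h2 : (0 : ℝ) < (N k : ℝ) - m k := by
        have h3 := hLpos k
        have h4 : (0 : ℝ) < L k ^ 2 := by positivity
        exact (div_pos_iff_of_pos_right h4).1 this
      have : (m k : ℝ) < N k := by linarith
      exact_mod_cast this
    set M : ℕ → ℕ := fun k => N k - m k with hM
    have hMc : ∀ᶠ k in atTop, (M k : ℝ) = (N k : ℝ) - m k := by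
      filter_upwards [hlt] with k hk
      rw [hM]
      push_cast [Nat.cast_sub hk.le]
      rfl
    have hMl : Tendsto (fun k => (M k : ℝ) / L k ^ 2) atTop (𝓝 (ρ - η)) := by
      refine hdl.congr' ?_
      filter_upwards [hMc] with k hk
      rw [hk, sub_div]
    have hfe := h.fe (ρ - η) hρ' hρ'' L M ⟨hL, hMl⟩
    -- the limit of the upper bound
    have hlog : Tendsto (fun k => log (L k ^ 2 / (M k : ℝ))) atTop (𝓝 (-log (ρ - η))) := by
      have h1 : Tendsto (fun k => log (((M k : ℝ) / L k ^ 2)⁻¹)) atTop (𝓝 (log ((ρ - η)⁻¹))) :=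
        (hMl.inv₀ hρ'.ne').log (inv_ne_zero hρ'.ne')
      rw [Real.log_inv] at h1
      refine h1.congr fun k => ?_
      rw [inv_div]
    have hlimit : Tendsto (fun k => -((M k : ℝ) / L k ^ 2) *
          (-(1 / (M k : ℝ)) * log (Z (L k) (M k))) +
        ((m k : ℝ) / L k ^ 2) * log (L k ^ 2 / (M k : ℝ)) + ((N k : ℝ) / L k ^ 2) * log z) atTop
        (𝓝 (-(ρ - η) * f (ρ - η) + η * (-log (ρ - η)) + ρ * log z)) :=
      ((hMl.neg.mul hfe).add (hml.mul hlog)).add (hxl.mul_const _)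
    have hge : P + ε ≤ -(ρ - η) * f (ρ - η) + η * (-log (ρ - η)) + ρ * log z := by
      refine ge_of_tendsto hlimit ?_
      filter_upwards [hlt] with k hk
      have hLk := hLpos k
      have hL2k : (0 : ℝ) < L k ^ 2 := by positivity
      have hMk : 1 ≤ M k := by simp only [hM]; omega
      have hMk0 : (0 : ℝ) < M k := by exact_mod_cast hMk
      have hsum : M k + m k = N k := by simp only [hM]; omega
      obtain ⟨hZM, hr⟩ := ratio h hLk (M k) (m k) hMk (by rw [hsum]; exact hZpos k)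
      rw [hsum] at hr
      have h1 := Real.log_lt_log (Real.exp_pos _) (hN k)
      rw [Real.log_exp, Real.log_mul (hZpos k).ne' (by positivity), Real.log_pow] at h1
      have h2 : L k ^ 2 * (P + ε) ≤ log (Z (L k) (M k)) + m k * log (L k ^ 2 / (M k : ℝ)) +
          N k * log z := by linarith
      have h3 : -((M k : ℝ) / L k ^ 2) *
          (-(1 / (M k : ℝ)) * log (Z (L k) (M k))) +
        ((m k : ℝ) / L k ^ 2) * log (L k ^ 2 / (M k : ℝ)) + ((N k : ℝ) / L k ^ 2) * log z =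
          (log (Z (L k) (M k)) + m k * log (L k ^ 2 / (M k : ℝ)) + N k * log z) / L k ^ 2 := by
        field_simp
      rw [h3, le_div_iff₀ hL2k]
      linarith
    have h4 := hP (ρ - η) hρ' hρ''
    have h5 : -log (ρ - η) ≤ |log (ρ / 2)| := by
      have h6 : log (ρ / 2) ≤ log (ρ - η) := Real.log_le_log (by positivity) (by linarith)
      have h7 := neg_abs_le (log (ρ / 2))
      linarith
    have h6 := le_abs_self (log z)
    have h7 : η * (log z + -log (ρ - η)) ≤ η * A :=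
      mul_le_mul_of_nonneg_left (by rw [hA]; linarith) hη0.le
    linarith
  · -- `ρ = 0`
    rw [← hzero] at hxl
    set t : ℝ := ε / (2 * z) with ht
    have ht0 : 0 < t := by positivity
    have htz : t * z = ε / 2 := by rw [ht]; field_simp
    have h1 : Tendsto (fun k => (N k : ℝ) / L k ^ 2 * (-log t)) atTop (𝓝 (0 * (-log t))) :=
      hxl.mul_const _
    rw [zero_mul] at h1
    obtain ⟨k, hk⟩ := (h1.eventually (gt_mem_nhds (half_pos hε))).exists
    have hLk := hLpos k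
    have hL2k : (0 : ℝ) < L k ^ 2 := by positivity
    have h2 := (hN k).trans_le (bnd h hLk.le (N k) hz ht0)
    rw [Real.exp_lt_exp, htz] at h2
    have h3 : (N k : ℝ) * (-log t) < ε / 2 * L k ^ 2 := by
      rw [div_mul_eq_mul_div, div_lt_iff₀ hL2k] at hk
      exact hk
    have h4 : 0 ≤ L k ^ 2 * P := by positivity
    linarith

end Pool.Agent.J4.H99.LY
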