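import Mathlib

/-! Project LY (helper99), piece SUPL: the supremum of `-ρ f ρ + ρ log z`, lower bound. -/

set_option autoImplicit false

open Filter Topology Real

namespace Pool.Agent.J4.H99.LY

theorem sup_lower {ρ₀ : ℝ} (h0 : 0 < ρ₀) {f : ℝ → ℝ} {K : ℝ}
    (hK : Tendsto (fun v => f (1 / v) + 2 * log (v - 1 / ρ₀)) (𝓝[>] (1 / ρ₀)) (𝓝 K)) :
    ∀ ε, 0 < ε → ∃ T, 1 < T ∧ ∀ z, T ≤ z → ∃ ρ, 0 < ρ ∧ ρ < ρ₀ ∧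
      ρ₀ * (log z - 2 * log (log z)) + ρ₀ * (2 * log (2 / ρ₀) - 2 - K) - ε ≤
        -ρ * f ρ + ρ * log z ∧
      (ρ₀ - ρ) * (1 + log (ρ₀ / (ρ₀ - ρ))) ≤ ε := by
  intro ε hε
  set g : ℝ → ℝ := fun ℓ => f (ρ₀ * ℓ / (ℓ + 2)) + 2 * log (2 / (ρ₀ * ℓ)) with hg
  have hv : Tendsto (fun ℓ : ℝ => 1 / ρ₀ + 2 / (ρ₀ * ℓ)) atTop (𝓝[>] (1 / ρ₀)) := by
    refine tendsto_nhdsWithin_iff.2 ⟨?_, ?_⟩
    · have h1 : Tendsto (fun ℓ : ℝ => 1 / ρ₀ + 2 / ρ₀ * ℓ⁻¹) atTop (𝓝 (1 / ρ₀ + 2 / ρ₀ * 0)) :=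
        (tendsto_inv_atTop_zero.const_mul (2 / ρ₀)).const_add (1 / ρ₀)
      rw [mul_zero, add_zero] at h1
      refine h1.congr fun ℓ => ?_
      rw [div_mul_eq_div_div, div_eq_mul_inv (2 / ρ₀) ℓ]
    · filter_upwards [eventually_gt_atTop (0 : ℝ)] with ℓ hℓ
      have : 0 < 2 / (ρ₀ * ℓ) := by positivity
      rw [Set.mem_Ioi]
      linarith
  have hgK : Tendsto g atTop (𝓝 K) := by
    refine (hK.comp hv).congr' ?_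
    filter_upwards [eventually_gt_atTop (0 : ℝ)] with ℓ hℓ
    have e1 : 1 / (1 / ρ₀ + 2 / (ρ₀ * ℓ)) = ρ₀ * ℓ / (ℓ + 2) := by
      field_simp
    show f (1 / (1 / ρ₀ + 2 / (ρ₀ * ℓ))) + 2 * log (1 / ρ₀ + 2 / (ρ₀ * ℓ) - 1 / ρ₀) = _
    rw [e1, add_sub_cancel_left]
  have hs : Tendsto (fun ℓ : ℝ => (ℓ + 2)⁻¹) atTop (𝓝 0) :=
    tendsto_inv_atTop_zero.comp (tendsto_atTop_add_const_right _ _ tendsto_id)
  have hsl : Tendsto (fun ℓ : ℝ => (ℓ + 2)⁻¹ * log ℓ) atTop (𝓝 0) := by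
    have h1 := Real.tendsto_pow_log_div_mul_add_atTop 1 2 1 one_ne_zero
    refine h1.congr fun ℓ => ?_
    rw [pow_one, one_mul, div_eq_mul_inv, mul_comm]
  have hsl2 : Tendsto (fun ℓ : ℝ => (ℓ + 2)⁻¹ * log (ℓ + 2)) atTop (𝓝 0) := by
    have h1 := (Real.tendsto_pow_log_div_mul_add_atTop 1 0 1 one_ne_zero).comp
      (tendsto_atTop_add_const_right atTop (2 : ℝ) tendsto_id)
    refine h1.congr fun ℓ => ?_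
    show log (ℓ + 2) ^ 1 / (1 * (ℓ + 2) + 0) = _
    rw [pow_one, one_mul, add_zero, div_eq_mul_inv, mul_comm]
  have hE : Tendsto (fun ℓ : ℝ => ρ₀ * (4 * (ℓ + 2)⁻¹ - (1 - 2 * (ℓ + 2)⁻¹) * g ℓ - 4 * log (2 / ρ₀) * (ℓ + 2)⁻¹ +
      4 * ((ℓ + 2)⁻¹ * log ℓ) + K)) atTop (𝓝 (ρ₀ * (4 * 0 - (1 - 2 * 0) * K - 4 * log (2 / ρ₀) * 0 + 4 * 0 + K))) :=
    (((((hs.const_mul 4).sub (((hs.const_mul 2).const_sub 1).mul hgK)).sub (hs.const_mul _)).add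
      (hsl.const_mul 4)).add_const K).const_mul ρ₀
  have hE2 : Tendsto (fun ℓ : ℝ => 2 * ρ₀ * ((ℓ + 2)⁻¹ * (1 - log 2) + (ℓ + 2)⁻¹ * log (ℓ + 2))) atTop
      (𝓝 (2 * ρ₀ * (0 * (1 - log 2) + 0))) := ((hs.mul_const _).add hsl2).const_mul _
  have z1 : ρ₀ * (4 * 0 - (1 - 2 * 0) * K - 4 * log (2 / ρ₀) * 0 + 4 * 0 + K) = 0 := by ring
  have z2 : 2 * ρ₀ * (0 * (1 - log 2) + 0) = 0 := by ring
  rw [z1] at hE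
  rw [z2] at hE2
  have ev := Real.tendsto_log_atTop.eventually ((hE.eventually (lt_mem_nhds (neg_lt_zero.2 hε))).and
    ((hE2.eventually (gt_mem_nhds hε)).and (eventually_gt_atTop 0)))
  obtain ⟨T, hT⟩ := eventually_atTop.1 ev
  refine ⟨max T 2, lt_of_lt_of_le one_lt_two (le_max_right _ _), fun z hz => ?_⟩
  obtain ⟨e1, e2, e3⟩ := hT z (le_trans (le_max_left _ _) hz)
  set ℓ : ℝ := log z with hℓ
  have hl2 : (0 : ℝ) < ℓ + 2 := by linarith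
  have hd : ρ₀ - ρ₀ * ℓ / (ℓ + 2) = 2 * ρ₀ / (ℓ + 2) := by
    field_simp
    ring
  refine ⟨ρ₀ * ℓ / (ℓ + 2), by positivity, ?_, ?_, ?_⟩
  · have : 0 < 2 * ρ₀ / (ℓ + 2) := by positivity
    linarith
  · have hgl : f (ρ₀ * ℓ / (ℓ + 2)) = g ℓ - 2 * log (2 / ρ₀) + 2 * log ℓ := by
      rw [hg]
      dsimp only
      rw [div_mul_eq_div_div, Real.log_div (by positivity) e3.ne']
      ring
    rw [hgl]
    have key : -(ρ₀ * ℓ / (ℓ + 2)) * (g ℓ - 2 * log (2 / ρ₀) + 2 * log ℓ) + ρ₀ * ℓ / (ℓ + 2) * ℓ =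
        ρ₀ * (ℓ - 2 * log ℓ) + ρ₀ * (2 * log (2 / ρ₀) - 2 - K) +
        ρ₀ * (4 * (ℓ + 2)⁻¹ - (1 - 2 * (ℓ + 2)⁻¹) * g ℓ - 4 * log (2 / ρ₀) * (ℓ + 2)⁻¹ +
          4 * ((ℓ + 2)⁻¹ * log ℓ) + K) := by
      field_simp
      ring
    rw [key]
    linarith
  · rw [hd]
    have e4 : ρ₀ / (2 * ρ₀ / (ℓ + 2)) = (ℓ + 2) / 2 := by
      field_simp
    rw [e4, Real.log_div hl2.ne' two_ne_zero]
    have e5 : 2 * ρ₀ / (ℓ + 2) * (1 + (log (ℓ + 2) - log 2)) =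
        2 * ρ₀ * ((ℓ + 2)⁻¹ * (1 - log 2) + (ℓ + 2)⁻¹ * log (ℓ + 2)) := by
      field_simp
      ring
    rw [e5]
    exact e2.le

end Pool.Agent.J4.H99.LY
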