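import Mathlib

/-! Project LY (helper99), piece SUPU: the supremum of `-ρ f ρ + ρ log z`, upper bound. -/

set_option autoImplicit false

open Filter Topology Real

namespace Pool.Agent.J4.H99.LY

namespace SupUAux

lemma lin {a : ℝ} (ha : 0 < a) (b c : ℝ) : ∀ᶠ x : ℝ in atTop, b * log x + c ≤ a * x := by
  have h1 := Real.tendsto_pow_log_div_mul_add_atTop 1 0 1 one_ne_zero
  have h2 : Tendsto (fun x : ℝ => b * (log x ^ 1 / (1 * x + 0)) + c * x⁻¹) atTop (𝓝 (b * 0 + c * 0)) :=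
    (h1.const_mul b).add (tendsto_inv_atTop_zero.const_mul c)
  rw [mul_zero, mul_zero, add_zero] at h2
  filter_upwards [h2.eventually (gt_mem_nhds ha), eventually_gt_atTop 0] with x hx hx0
  have h3 : (b * log x + c) / x < a := by
    refine lt_of_eq_of_lt ?_ hx
    rw [pow_one, one_mul, add_zero]
    field_simp
  rw [div_lt_iff₀ hx0] at h3
  exact h3.le

lemma near {ρ₀ : ℝ} {f : ℝ → ℝ} {K : ℝ}
    (hK : Tendsto (fun v => f (1 / v) + 2 * log (v - 1 / ρ₀)) (𝓝[>] (1 / ρ₀)) (𝓝 K)) {e : ℝ} (he0 : 0 < e) :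
    ∃ δ > 0, ∀ u, 0 < u → u < δ → K - e ≤ f (1 / (1 / ρ₀ + u)) + 2 * log u := by
  have h1 := hK.eventually (lt_mem_nhds (sub_lt_self K he0))
  rw [eventually_nhdsWithin_iff, Metric.eventually_nhds_iff] at h1
  obtain ⟨δ, hδ, h⟩ := h1
  refine ⟨δ, hδ, fun u hu hu2 => ?_⟩
  have h2 := @h (1 / ρ₀ + u) (by rw [Real.dist_eq, add_sub_cancel_left, abs_of_pos hu]; exact hu2)
    (by rw [Set.mem_Ioi]; linarith)
  rw [add_sub_cancel_left] at h2
  exact h2.le

end SupUAux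

open SupUAux in
theorem sup_upper {ρ₀ : ℝ} (h0 : 0 < ρ₀) {f : ℝ → ℝ} {C K : ℝ}
    (hb : ∀ ρ, 0 < ρ → ρ < ρ₀ → |f ρ - (log ρ - 2 * log (1 - ρ / ρ₀))| ≤ C)
    (hK : Tendsto (fun v => f (1 / v) + 2 * log (v - 1 / ρ₀)) (𝓝[>] (1 / ρ₀)) (𝓝 K)) :
    ∀ ε, 0 < ε → ∃ T, 1 < T ∧ ∀ z, T ≤ z → ∀ ρ, 0 < ρ → ρ < ρ₀ →
      -ρ * f ρ + ρ * log z ≤
        ρ₀ * (log z - 2 * log (log z)) + ρ₀ * (2 * log (2 / ρ₀) - 2 - K) + ε := by
  intro ε hε
  set e : ℝ := ε / (2 * ρ₀) with he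
  have he0 : 0 < e := by positivity
  have heε : 2 * ρ₀ * e = ε := by
    rw [he]
    field_simp
  obtain ⟨δ, hδ, hδK⟩ := near hK he0
  set w₁ : ℝ := 2 * exp (e / 2) with hw₁d
  have hw₁ : 2 < w₁ := by
    have : 1 < exp (e / 2) := by
      rw [Real.one_lt_exp_iff]
      positivity
    linarith
  have hlog : 2 * log w₁ = 2 * log 2 + e := by
    rw [hw₁d, Real.log_mul two_ne_zero (Real.exp_pos _).ne', Real.log_exp]
    ring
  have hρ₁ : 1 / (1 / ρ₀ + δ) < ρ₀ := by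
    rw [div_lt_iff₀ (by positivity), mul_add, mul_one_div_cancel h0.ne']
    have : 0 < ρ₀ * δ := by positivity
    linarith
  have hl2 : log (2 / ρ₀) = log 2 - log ρ₀ := Real.log_div two_ne_zero h0.ne'
  have ev := Real.tendsto_log_atTop.eventually
    ((lin (sub_pos.2 hw₁) (2 * w₁) (-(w₁ * (-2 * log ρ₀ - K + e + 2 * log w₁ - 2)))).and
      ((lin (sub_pos.2 hρ₁) (2 * ρ₀) (ρ₀ * |C| + 1 - ρ₀ * (2 * log (2 / ρ₀) - 2 - K))).and (eventually_gt_atTop 0)))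
  obtain ⟨T, hT⟩ := eventually_atTop.1 ev
  refine ⟨max T 2, lt_of_lt_of_le one_lt_two (le_max_right _ _), fun z hz ρ h1 h2 => ?_⟩
  obtain ⟨e1, e2, e3⟩ := hT z (le_trans (le_max_left _ _) hz)
  set ℓ : ℝ := log z with hℓ
  have hinv : 1 / ρ₀ < 1 / ρ := one_div_lt_one_div_of_lt h1 h2
  by_cases hu : 1 / ρ - 1 / ρ₀ < δ
  · set u : ℝ := 1 / ρ - 1 / ρ₀ with hud
    have hu0 : 0 < u := by linarith
    have hf := hδK u hu0 hu
    have hρu : 1 / (1 / ρ₀ + u) = ρ := by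
      rw [hud, add_sub_cancel, one_div_one_div]
    rw [hρu] at hf
    set w : ℝ := u * ρ₀ * ℓ with hwd
    have hw : 0 < w := by positivity
    have hlu : log w = log u + log ρ₀ + log ℓ := by
      rw [hwd, Real.log_mul (by positivity) e3.ne', Real.log_mul hu0.ne' h0.ne']
    have hlw : log w ≤ log w₁ + (w / w₁ - 1) := by
      have e4 := Real.log_le_sub_one_of_pos (show 0 < w / w₁ by positivity)
      rw [Real.log_div hw.ne' (by positivity)] at e4
      linarith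
    have hρw : ρ * (ℓ + w) = ρ₀ * ℓ := by
      rw [hwd, hud]
      field_simp
      ring
    set B : ℝ := ℓ - 2 * log ℓ - 2 * log ρ₀ - K + e + 2 * log w₁ - 2 with hB
    have hB1 : 2 * ℓ ≤ w₁ * B := by
      rw [hB]
      linarith [e1]
    have s1 : -ρ * f ρ + ρ * ℓ ≤ ρ * (B + 2 * (w / w₁)) := by
      have : ℓ - f ρ ≤ B + 2 * (w / w₁) := by
        rw [hB]
        linarith
      calc -ρ * f ρ + ρ * ℓ = ρ * (ℓ - f ρ) := by ring
        _ ≤ _ := mul_le_mul_of_nonneg_left this h1.le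
    have s2 : ρ * (B + 2 * (w / w₁)) ≤ ρ₀ * B := by
      have s3 : 2 * (ℓ / w₁) ≤ B := by
        rw [← mul_div_assoc, div_le_iff₀ (by positivity)]
        linarith
      have s4 : 0 ≤ ρ * w * (B - 2 * (ℓ / w₁)) := by
        have := sub_nonneg.2 s3
        positivity
      have s5 : ρ₀ * B * ℓ = ρ * (ℓ + w) * B := by
        rw [hρw]
        ring
      have s6 : ρ * (B + 2 * (w / w₁)) * ℓ ≤ ρ₀ * B * ℓ := by
        rw [s5]
        have : ρ * (ℓ + w) * B - ρ * (B + 2 * (w / w₁)) * ℓ = ρ * w * (B - 2 * (ℓ / w₁)) := by ring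
        linarith
      exact le_of_mul_le_mul_right s6 e3
    have s7 : ρ₀ * B = ρ₀ * (ℓ - 2 * log ℓ) + ρ₀ * (2 * log (2 / ρ₀) - 2 - K) + ε := by
      rw [hB, hlog, hl2, ← heε]
      ring
    linarith
  · have hδ2 : δ ≤ 1 / ρ - 1 / ρ₀ := not_lt.1 hu
    have hρle : ρ ≤ 1 / (1 / ρ₀ + δ) := by
      rw [le_div_iff₀ (by positivity)]
      have : ρ * (1 / ρ₀ + δ) ≤ ρ * (1 / ρ) := mul_le_mul_of_nonneg_left (by linarith) h1.le
      rwa [mul_one_div_cancel h1.ne'] at this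
    have hC := hb ρ h1 h2
    rw [abs_le] at hC
    have hC0 : C ≤ |C| := le_abs_self C
    have hlneg : log (1 - ρ / ρ₀) ≤ 0 := by
      have q1 : ρ / ρ₀ < 1 := (div_lt_one h0).2 h2
      have q2 : 0 < ρ / ρ₀ := by positivity
      exact Real.log_nonpos (by linarith) (by linarith)
    have hent : -(ρ * log ρ) ≤ 1 := by
      have q := Real.log_le_sub_one_of_pos (show 0 < 1 / ρ by positivity)
      rw [one_div, Real.log_inv] at q
      have q2 := mul_le_mul_of_nonneg_left q h1.le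
      rw [mul_sub, mul_inv_cancel₀ h1.ne'] at q2
      linarith
    have s1 : -ρ * f ρ ≤ ρ₀ * |C| + 1 := by
      have q1 : -f ρ ≤ |C| - log ρ := by linarith
      have q2 := mul_le_mul_of_nonneg_left q1 h1.le
      have q3 : ρ * |C| ≤ ρ₀ * |C| := mul_le_mul_of_nonneg_right h2.le (abs_nonneg _)
      linarith
    have s2 : ρ * ℓ ≤ 1 / (1 / ρ₀ + δ) * ℓ := mul_le_mul_of_nonneg_right hρle e3.le
    linarith

end Pool.Agent.J4.H99.LY
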