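import Pool.Agent.J4.H99.LY.Poly
import Pool.Agent.J4.H99.LY.SupU
import Pool.Agent.J4.H99.LY.SupL
import Pool.Agent.J4.H99.LY.LimA
import Pool.Agent.J4.H99.LY.LimB

/-!
# Assembly: the zeros of the grand canonical partition function
-/

set_option autoImplicit false

open Filter Topology Real Polynomial

namespace Pool.Agent.J4.H99.LY

variable {Z : ℝ → ℕ → ℝ} {ρ₀ : ℝ} {f : ℝ → ℝ} {C K : ℝ}

/-- the pressure as a function of the activity -/
noncomputable def pr (ρ₀ : ℝ) (f : ℝ → ℝ) (z : ℝ) : ℝ :=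
  sSup {y | ∃ ρ, 0 < ρ ∧ ρ < ρ₀ ∧ y = -ρ * f ρ + ρ * log z}

lemma val_le (h : Facts Z ρ₀ f C) {z ρ : ℝ} (h1 : 0 < ρ) (h2 : ρ < ρ₀) :
    -ρ * f ρ + ρ * log z ≤ 1 + ρ₀ * (|C| + |log z|) := by
  have hb := abs_le.1 (h.bd ρ h1 h2)
  have h3 : log (1 - ρ / ρ₀) ≤ 0 := by
    apply log_nonpos
    · rw [sub_nonneg, div_le_one h.r0]; exact h2.le
    · have : 0 < ρ / ρ₀ := div_pos h1 h.r0
      linarith
  have h4 : -ρ * log ρ ≤ 1 := by
    have := Real.add_one_le_exp (-log ρ - 1)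
    have h5 := Real.one_sub_inv_le_log_of_pos h1
    have h6 : ρ * (1 - ρ⁻¹) = ρ - 1 := by field_simp
    nlinarith
  have h7 : C ≤ |C| := le_abs_self C
  have h8 : log z ≤ |log z| := le_abs_self _
  have h9 : 0 ≤ |C| := abs_nonneg C
  have h10 : 0 ≤ |log z| := abs_nonneg _
  have e : -ρ * f ρ + ρ * log z ≤ -ρ * log ρ + ρ * (|C| + |log z|) := by
    have h11 : log ρ - |C| ≤ f ρ := by linarith [hb.1]
    nlinarith
  have h12 : ρ * (|C| + |log z|) ≤ ρ₀ * (|C| + |log z|) := by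
    apply mul_le_mul_of_nonneg_right h2.le; linarith
  linarith

lemma bdd (h : Facts Z ρ₀ f C) (z : ℝ) :
    BddAbove {y | ∃ ρ, 0 < ρ ∧ ρ < ρ₀ ∧ y = -ρ * f ρ + ρ * log z} :=
  ⟨_, by rintro y ⟨ρ, h1, h2, rfl⟩; exact val_le h h1 h2⟩

lemma le_pr (h : Facts Z ρ₀ f C) (z : ℝ) {ρ : ℝ} (h1 : 0 < ρ) (h2 : ρ < ρ₀) :
    -ρ * f ρ + ρ * log z ≤ pr ρ₀ f z :=
  le_csSup (bdd h z) ⟨ρ, h1, h2, rfl⟩

lemma pr_le (h : Facts Z ρ₀ f C) {z y : ℝ}
    (hy : ∀ ρ, 0 < ρ → ρ < ρ₀ → -ρ * f ρ + ρ * log z ≤ y) : pr ρ₀ f z ≤ y := by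
  refine csSup_le ⟨_, ρ₀ / 2, by linarith [h.r0], by linarith [h.r0], rfl⟩ ?_
  rintro y ⟨ρ, h1, h2, rfl⟩
  exact hy ρ h1 h2

lemma exists_pr (h : Facts Z ρ₀ f C) (z : ℝ) {ε : ℝ} (hε : 0 < ε) :
    ∃ ρ, 0 < ρ ∧ ρ < ρ₀ ∧ pr ρ₀ f z - ε < -ρ * f ρ + ρ * log z := by
  have hne : {y | ∃ ρ, 0 < ρ ∧ ρ < ρ₀ ∧ y = -ρ * f ρ + ρ * log z}.Nonempty :=
    ⟨_, ρ₀ / 2, by linarith [h.r0], by linarith [h.r0], rfl⟩
  obtain ⟨y, ⟨ρ, h1, h2, rfl⟩, hy⟩ := exists_lt_of_lt_csSup hne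
    (show pr ρ₀ f z - ε < sSup _ by unfold pr; linarith)
  exact ⟨ρ, h1, h2, hy⟩

/-! ### limits -/

lemma sq_atTop : Tendsto (fun L : ℝ => L ^ 2) atTop atTop := tendsto_pow_atTop (by norm_num)

lemma floor_div {ρ : ℝ} (h1 : 0 ≤ ρ) :
    Tendsto (fun L : ℝ => (⌊ρ * L ^ 2⌋₊ : ℝ) / L ^ 2) atTop (𝓝 ρ) :=
  (tendsto_nat_floor_mul_div_atTop h1).comp sq_atTop

section xi

variable {Ξ : ℝ → ℂ[X]} (hΞ : ∀ L N, (Ξ L).coeff N = Z L N)
include hΞ

lemma natDegree_div (h : Facts Z ρ₀ f C) :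
    Tendsto (fun L => ((Ξ L).natDegree : ℝ) / L ^ 2) atTop (𝓝 ρ₀) := by
  rw [Metric.tendsto_nhds]
  intro ε hε
  filter_upwards [deg_le h (half_pos hε), pos h (half_pos hε), eventually_gt_atTop 0,
    sq_atTop.eventually_gt_atTop (2 / ε), sq_atTop.eventually_gt_atTop (1 / ρ₀)] with L h1 h2 h3 h4 h5
  have hL : 0 < L ^ 2 := by positivity
  have hne : Z L 0 ≠ 0 := by rw [h.one]; norm_num
  have hP : Ξ L ≠ 0 := by
    intro h0
    have := hΞ L 0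
    rw [h0, coeff_zero] at this
    exact hne (by exact_mod_cast this.symm)
  have hd : Z L (Ξ L).natDegree ≠ 0 := by
    intro h0
    have := hΞ L (Ξ L).natDegree
    rw [h0] at this
    rw [← leadingCoeff] at this
    exact hP (leadingCoeff_eq_zero.1 (by simpa using this))
  have hup := h1 _ hd
  -- lower bound
  have hlow : (ρ₀ - ε / 2) * L ^ 2 - 1 ≤ (Ξ L).natDegree := by
    rcases le_or_gt ((ρ₀ - ε / 2) * L ^ 2) 0 with hc | hc
    · have : (0 : ℝ) ≤ (Ξ L).natDegree := by positivity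
      linarith
    · have h6 := h2 ⌊(ρ₀ - ε / 2) * L ^ 2⌋₊ (Nat.floor_le hc.le)
      have h7 : ⌊(ρ₀ - ε / 2) * L ^ 2⌋₊ ≤ (Ξ L).natDegree := by
        apply le_natDegree_of_ne_zero
        rw [hΞ]
        exact_mod_cast h6.ne'
      have h8 := Nat.lt_floor_add_one ((ρ₀ - ε / 2) * L ^ 2)
      have h9 : (⌊(ρ₀ - ε / 2) * L ^ 2⌋₊ : ℝ) ≤ (Ξ L).natDegree := by exact_mod_cast h7
      linarith
  rw [Real.dist_eq, abs_lt]
  have h10 : 1 < ε / 2 * L ^ 2 := by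
    rw [div_lt_iff₀ hε] at h4
    linarith
  constructor
  · rw [lt_sub_iff_add_lt, lt_div_iff₀ hL]
    nlinarith
  · rw [sub_lt_iff_lt_add, div_lt_iff₀ hL]
    nlinarith

lemma coeff_le_deg (L : ℝ) {N : ℕ} (hN : 0 < Z L N) : N ≤ (Ξ L).natDegree := by
  apply le_natDegree_of_ne_zero
  rw [hΞ]
  exact_mod_cast hN.ne'

/-- the value on the positive axis -/
lemma logS_le (h : Facts Z ρ₀ f C) {z : ℝ} (hz : 0 < z) {ε : ℝ} (hε : 0 < ε) :
    ∀ᶠ L in atTop, log (∑ j ∈ Finset.range ((Ξ L).natDegree + 1), Z L j * z ^ j) ≤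
      L ^ 2 * (pr ρ₀ f z + ε) := by
  have hlog : Tendsto (fun L : ℝ => log ((ρ₀ + 2) * L ^ 2) / L ^ 2) atTop (𝓝 0) := by
    have h1 : Tendsto (fun x : ℝ => log x / x) atTop (𝓝 0) := by
      simpa using Real.tendsto_pow_log_div_mul_add_atTop 1 0 1 one_ne_zero
    have h2 : Tendsto (fun L : ℝ => (ρ₀ + 2) * L ^ 2) atTop atTop :=
      sq_atTop.const_mul_atTop (by linarith [h.r0])
    have h3 := (h1.comp h2).mul_const (ρ₀ + 2)
    rw [zero_mul] at h3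
    refine h3.congr' ?_
    filter_upwards [eventually_gt_atTop 0] with L hL
    have := h.r0
    simp only [Function.comp_apply]
    field_simp
  filter_upwards [upper h hz (fun ρ h1 h2 => le_pr h z h1 h2) (half_pos hε),
    deg_le h one_pos, eventually_gt_atTop 1, hlog.eventually (gt_mem_nhds (half_pos hε))]
    with L h1 h2 h3 h4
  have hL : 0 < L ^ 2 := by positivity
  have hL1 : 1 < L ^ 2 := one_lt_pow₀ h3 (by norm_num)
  have hne : Z L 0 ≠ 0 := by rw [h.one]; norm_num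
  have hP : Ξ L ≠ 0 := by
    intro h0
    have := hΞ L 0
    rw [h0, coeff_zero] at this
    exact hne (by exact_mod_cast this.symm)
  have hd : Z L (Ξ L).natDegree ≠ 0 := by
    intro h0
    have := hΞ L (Ξ L).natDegree
    rw [h0] at this
    rw [← leadingCoeff] at this
    exact hP (leadingCoeff_eq_zero.1 (by simpa using this))
  have hdeg := h2 _ hd
  have hS0 : 0 < ∑ j ∈ Finset.range ((Ξ L).natDegree + 1), Z L j * z ^ j := by
    refine Finset.sum_pos' (fun j _ => mul_nonneg (h.nonneg L j) (by positivity)) ⟨0, by simp, ?_⟩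
    rw [h.one]; simp
  have hS : ∑ j ∈ Finset.range ((Ξ L).natDegree + 1), Z L j * z ^ j ≤
      (ρ₀ + 2) * L ^ 2 * exp (L ^ 2 * (pr ρ₀ f z + ε / 2)) := by
    calc _ ≤ ∑ j ∈ Finset.range ((Ξ L).natDegree + 1), exp (L ^ 2 * (pr ρ₀ f z + ε / 2)) :=
          Finset.sum_le_sum fun j _ => h1 j
      _ = ((Ξ L).natDegree + 1) * exp (L ^ 2 * (pr ρ₀ f z + ε / 2)) := by
          rw [Finset.sum_const, Finset.card_range, nsmul_eq_mul]; push_cast; ring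
      _ ≤ _ := by
          gcongr
          linarith
  have hr : 0 < (ρ₀ + 2) * L ^ 2 := by have := h.r0; positivity
  have := log_le_log hS0 hS
  rw [log_mul hr.ne' (exp_pos _).ne', log_exp] at this
  rw [div_lt_iff₀ hL] at h4
  nlinarith

/-- a large coefficient -/
lemma term_ge (h : Facts Z ρ₀ f C) {ρ : ℝ} (h1 : 0 < ρ) (h2 : ρ < ρ₀) {z : ℝ} (hz : 0 < z) {ε : ℝ}
    (hε : 0 < ε) :
    ∀ᶠ L : ℝ in atTop, 0 < Z L ⌊ρ * L ^ 2⌋₊ ∧
      L ^ 2 * (-ρ * f ρ + ρ * log z - ε) ≤ log (Z L ⌊ρ * L ^ 2⌋₊ * z ^ ⌊ρ * L ^ 2⌋₊) := by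
  have hlim := (floor_div h1.le).mul_const (log z)
  filter_upwards [lower h h1 h2 (half_pos hε), eventually_gt_atTop 0,
    hlim.eventually (lt_mem_nhds (show ρ * log z - ε / 2 < ρ * log z by linarith))] with L h3 h4 h5
  have hL : 0 < L ^ 2 := by positivity
  have hpos : 0 < Z L ⌊ρ * L ^ 2⌋₊ := (exp_pos _).trans_le h3
  refine ⟨hpos, ?_⟩
  rw [log_mul hpos.ne' (by positivity), log_pow]
  have h6 := log_le_log (exp_pos _) h3
  rw [log_exp] at h6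
  have h7 : (ρ * log z - ε / 2) * L ^ 2 < (⌊ρ * L ^ 2⌋₊ : ℝ) * log z := by
    have : (⌊ρ * L ^ 2⌋₊ : ℝ) / L ^ 2 * log z * L ^ 2 = (⌊ρ * L ^ 2⌋₊ : ℝ) * log z := by
      field_simp
    rw [← this]
    gcongr
  nlinarith

lemma log_choose_le {n m : ℕ} (hm : 0 < m) (hmn : m ≤ n) :
    log (n.choose m) ≤ m * (1 + log (n / m)) := by
  have hmr : (0 : ℝ) < m := by exact_mod_cast hm
  have hnr : (0 : ℝ) < n := by exact_mod_cast hm.trans_le hmn
  have h1 : (n.choose m : ℝ) ≤ n ^ m / m.factorial := Nat.choose_le_pow_div m n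
  have h2 : (m : ℝ) ^ m / m.factorial ≤ exp m := Real.pow_div_factorial_le_exp m hmr.le m
  have hf : (0 : ℝ) < m.factorial := by exact_mod_cast m.factorial_pos
  have h3 : (n : ℝ) ^ m / m.factorial ≤ (n / m) ^ m * exp m := by
    calc (n : ℝ) ^ m / m.factorial = (n / m) ^ m * ((m : ℝ) ^ m / m.factorial) := by
          rw [div_pow]; field_simp
      _ ≤ _ := by gcongr
  have h4 : (0 : ℝ) < n.choose m := by exact_mod_cast Nat.choose_pos hmn
  have h5 := log_le_log h4 (h1.trans h3)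
  rw [log_mul (by positivity) (exp_pos _).ne', log_pow, log_exp] at h5
  linarith

omit hΞ in
lemma dummy : True := trivial

lemma choose_le (h : Facts Z ρ₀ f C) {ρ : ℝ} (h1 : 0 < ρ) (h2 : ρ < ρ₀) {ε : ℝ} (hε : 0 < ε) :
    ∀ᶠ L : ℝ in atTop, log ((Ξ L).natDegree.choose ⌊ρ * L ^ 2⌋₊) ≤
      L ^ 2 * ((ρ₀ - ρ) * (1 + log (ρ₀ / (ρ₀ - ρ))) + ε) := by
  have hn := natDegree_div hΞ h
  have hN := floor_div h1.le
  have hx : 0 < ρ₀ - ρ := by linarith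
  have hd := hn.sub hN
  have hlim : Tendsto (fun L : ℝ => (((Ξ L).natDegree : ℝ) / L ^ 2 - (⌊ρ * L ^ 2⌋₊ : ℝ) / L ^ 2) *
      (1 + log (((Ξ L).natDegree : ℝ) / L ^ 2 /
        (((Ξ L).natDegree : ℝ) / L ^ 2 - (⌊ρ * L ^ 2⌋₊ : ℝ) / L ^ 2)))) atTop
      (𝓝 ((ρ₀ - ρ) * (1 + log (ρ₀ / (ρ₀ - ρ))))) := by
    refine hd.mul (tendsto_const_nhds.add ?_)
    refine Tendsto.log (hn.div hd hx.ne') ?_
    exact (div_pos h.r0 hx).ne'
  filter_upwards [hlim.eventually (gt_mem_nhds (show (ρ₀ - ρ) * (1 + log (ρ₀ / (ρ₀ - ρ))) <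
    (ρ₀ - ρ) * (1 + log (ρ₀ / (ρ₀ - ρ))) + ε by linarith)), hd.eventually (lt_mem_nhds hx),
    eventually_gt_atTop 0] with L h3 h4 h5
  have hL : 0 < L ^ 2 := by positivity
  have h6 : (⌊ρ * L ^ 2⌋₊ : ℝ) < (Ξ L).natDegree := by
    rw [← sub_div] at h4
    have := (div_pos_iff_of_pos_right hL).1 h4
    linarith
  have h7 : ⌊ρ * L ^ 2⌋₊ < (Ξ L).natDegree := by exact_mod_cast h6
  set n := (Ξ L).natDegree with hn'
  set N := ⌊ρ * L ^ 2⌋₊ with hN'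
  rw [← Nat.choose_symm h7.le]
  have h8 := log_choose_le hΞ (n := n) (m := n - N) (by omega) (by omega)
  refine h8.trans ?_
  have h9 : ((n - N : ℕ) : ℝ) = n - N := by push_cast [Nat.cast_sub h7.le]; ring
  rw [h9]
  have h10 : ((n : ℝ) / L ^ 2 - N / L ^ 2) * (1 + log ((n : ℝ) / L ^ 2 / (n / L ^ 2 - N / L ^ 2))) *
      L ^ 2 = (n - N) * (1 + log (n / (n - N))) := by
    rw [← sub_div]
    have : (n : ℝ) / L ^ 2 / ((n - N) / L ^ 2) = n / (n - N) := by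
      rw [div_div_div_cancel_right₀ hL.ne']
    rw [this]
    field_simp
  rw [← h10, mul_comm (L ^ 2)]
  gcongr

/-- the pressure -/
theorem pressure (h : Facts Z ρ₀ f C) {z : ℝ} (hz : 0 < z) :
    Tendsto (fun L => log (∑ j ∈ Finset.range ((Ξ L).natDegree + 1), Z L j * z ^ j) / L ^ 2) atTop
      (𝓝 (pr ρ₀ f z)) := by
  rw [Metric.tendsto_nhds]
  intro ε hε
  obtain ⟨ρ, h1, h2, h3⟩ := exists_pr h z (half_pos hε)
  filter_upwards [logS_le hΞ h hz (half_pos hε), term_ge hΞ h h1 h2 hz (half_pos (half_pos hε)),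
    eventually_gt_atTop 0] with L h4 h5 h6
  have hL : 0 < L ^ 2 := by positivity
  have h7 : log (Z L ⌊ρ * L ^ 2⌋₊ * z ^ ⌊ρ * L ^ 2⌋₊) ≤
      log (∑ j ∈ Finset.range ((Ξ L).natDegree + 1), Z L j * z ^ j) := by
    apply log_le_log (mul_pos h5.1 (by positivity))
    refine Finset.single_le_sum (f := fun j => Z L j * z ^ j)
      (fun j _ => mul_nonneg (h.nonneg L j) (by positivity)) ?_
    rw [Finset.mem_range, Nat.lt_succ_iff]
    exact coeff_le_deg hΞ L h5.1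
  rw [Real.dist_eq, abs_lt]
  constructor
  · rw [lt_sub_iff_add_lt, lt_div_iff₀ hL]
    nlinarith [h5.2]
  · rw [sub_lt_iff_lt_add, div_lt_iff₀ hL]
    nlinarith

/-- asymptotics of the pressure -/
theorem pr_asymp (h : Facts Z ρ₀ f C)
    (hK : Tendsto (fun v => f (1 / v) + 2 * log (v - 1 / ρ₀)) (𝓝[>] (1 / ρ₀)) (𝓝 K)) :
    Tendsto (fun z => pr ρ₀ f z - ρ₀ * (log z - 2 * log (log z))) atTop
      (𝓝 (ρ₀ * (2 * log (2 / ρ₀) - 2 - K))) := by
  rw [Metric.tendsto_nhds]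
  intro ε hε
  obtain ⟨T, hT, hu⟩ := sup_upper h.r0 h.bd hK (ε / 2) (half_pos hε)
  obtain ⟨T', hT', hl⟩ := sup_lower h.r0 hK (ε / 2) (half_pos hε)
  filter_upwards [eventually_ge_atTop T, eventually_ge_atTop T'] with z h1 h2
  have h3 := pr_le h (hu z h1)
  obtain ⟨ρ, h4, h5, h6, -⟩ := hl z h2
  have h7 := le_pr h z h4 h5
  rw [Real.dist_eq, abs_lt]
  constructor <;> linarith

/-- two radii -/
theorem two_radii (h : Facts Z ρ₀ f C)
    (hK : Tendsto (fun v => f (1 / v) + 2 * log (v - 1 / ρ₀)) (𝓝[>] (1 / ρ₀)) (𝓝 K)) {ε : ℝ}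
    (hε : 0 < ε) :
    ∃ T, 1 < T ∧ ∀ R R', T ≤ R → R < R' → ∀ᶠ L in atTop,
      (nz (Ξ L) R' : ℝ) * log (R' / R) ≤ L ^ 2 * (2 * ρ₀ * log (log R' / log R) + ε) ∧
      L ^ 2 * (2 * ρ₀ * log (log R' / log R) - ε) ≤ (nz (Ξ L) R : ℝ) * log (R' / R) := by
  have hε8 : 0 < ε / 8 := by positivity
  obtain ⟨T, hT, hu⟩ := sup_upper h.r0 h.bd hK (ε / 8) hε8
  obtain ⟨T', hT', hl⟩ := sup_lower h.r0 hK (ε / 8) hε8
  refine ⟨max T T', lt_max_of_lt_left hT, fun R R' hR hRR => ?_⟩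
  have hR1 : 1 < R := hT.trans_le ((le_max_left _ _).trans hR)
  have hR1' : 1 < R' := hR1.trans hRR
  have hR0 : 0 < R := by linarith
  have hR0' : 0 < R' := by linarith
  have hlR : 0 < log R := log_pos hR1
  have hlR' : 0 < log R' := log_pos hR1'
  obtain ⟨ρ, r1, r2, r3, r4⟩ := hl R ((le_max_right _ _).trans hR)
  obtain ⟨ρ', r1', r2', r3', r4'⟩ := hl R' ((le_max_right _ _).trans (hR.trans hRR.le))
  have p1 := pr_le h (hu R ((le_max_left _ _).trans hR))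
  have p2 := pr_le h (hu R' ((le_max_left _ _).trans (hR.trans hRR.le)))
  have hn := (natDegree_div hΞ h).mul_const (log (R' / R))
  have hlogR : 0 < log (R' / R) := log_pos (by rw [lt_div_iff₀ hR0]; linarith)
  have e1 : log (R' / R) = log R' - log R := log_div hR0'.ne' hR0.ne'
  have e2 : log (log R' / log R) = log (log R') - log (log R) := log_div hlR'.ne' hlR.ne'
  filter_upwards [logS_le hΞ h hR0 hε8, logS_le hΞ h hR0' hε8, term_ge hΞ h r1 r2 hR0 hε8,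
    term_ge hΞ h r1' r2' hR0' hε8, choose_le hΞ h r1 r2 hε8, choose_le hΞ h r1' r2' hε8,
    hn.eventually (gt_mem_nhds (show ρ₀ * log (R' / R) < ρ₀ * log (R' / R) + ε / 8 by linarith)),
    hn.eventually (lt_mem_nhds (show ρ₀ * log (R' / R) - ε / 8 < ρ₀ * log (R' / R) by linarith)),
    eventually_gt_atTop 0] with L a1 a2 a3 a4 a5 a6 a7 a8 a9
  have hL : 0 < L ^ 2 := by positivity
  have n1 : ((Ξ L).natDegree : ℝ) * log (R' / R) < (ρ₀ * log (R' / R) + ε / 8) * L ^ 2 := by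
    have : ((Ξ L).natDegree : ℝ) / L ^ 2 * log (R' / R) * L ^ 2 =
        (Ξ L).natDegree * log (R' / R) := by field_simp
    rw [← this]
    gcongr
  have n2 : (ρ₀ * log (R' / R) - ε / 8) * L ^ 2 < ((Ξ L).natDegree : ℝ) * log (R' / R) := by
    have : ((Ξ L).natDegree : ℝ) / L ^ 2 * log (R' / R) * L ^ 2 =
        (Ξ L).natDegree * log (R' / R) := by field_simp
    rw [← this]
    gcongr
  have u := nz_le (hΞ L) (h.nonneg L) hR0 hRR a4.1
  have l := le_nz (hΞ L) (h.nonneg L) hR0 hRR a3.1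
  rw [e2]
  constructor
  · refine u.trans ?_
    have b1 : L ^ 2 * (pr ρ₀ f R + ε / 8) ≤ L ^ 2 * (ρ₀ * (log R - 2 * log (log R)) +
        ρ₀ * (2 * log (2 / ρ₀) - 2 - K) + ε / 8 + ε / 8) := by gcongr
    have b2 : L ^ 2 * (ρ₀ * (log R' - 2 * log (log R')) + ρ₀ * (2 * log (2 / ρ₀) - 2 - K) - ε / 8 -
        ε / 8) ≤ L ^ 2 * (-ρ' * f ρ' + ρ' * log R' - ε / 8) := by gcongr
    have b3 : L ^ 2 * ((ρ₀ - ρ') * (1 + log (ρ₀ / (ρ₀ - ρ'))) + ε / 8) ≤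
        L ^ 2 * (ε / 8 + ε / 8) := by gcongr
    rw [e1] at n1 ⊢
    have b4 := mul_pos hL hε
    have b5 := a4.2
    linarith
  · refine le_trans ?_ l
    have b1 : L ^ 2 * (pr ρ₀ f R' + ε / 8) ≤ L ^ 2 * (ρ₀ * (log R' - 2 * log (log R')) +
        ρ₀ * (2 * log (2 / ρ₀) - 2 - K) + ε / 8 + ε / 8) := by gcongr
    have b2 : L ^ 2 * (ρ₀ * (log R - 2 * log (log R)) + ρ₀ * (2 * log (2 / ρ₀) - 2 - K) - ε / 8 -
        ε / 8) ≤ L ^ 2 * (-ρ * f ρ + ρ * log R - ε / 8) := by gcongr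
    have b3 : L ^ 2 * ((ρ₀ - ρ) * (1 + log (ρ₀ / (ρ₀ - ρ))) + ε / 8) ≤
        L ^ 2 * (ε / 8 + ε / 8) := by gcongr
    rw [e1] at n2 ⊢
    have b4 := mul_pos hL hε
    have b5 := a3.2
    linarith

/-- **The number of zeros of large modulus.** -/
theorem zeros (h : Facts Z ρ₀ f C)
    (hK : Tendsto (fun v => f (1 / v) + 2 * log (v - 1 / ρ₀)) (𝓝[>] (1 / ρ₀)) (𝓝 K)) {η : ℝ}
    (hη : 0 < η) :
    ∃ T, 1 < T ∧ ∀ t, T ≤ t → ∀ᶠ L : ℝ in atTop,
      (2 - η) * ρ₀ * L ^ 2 / log t ≤ nz (Ξ L) t ∧ (nz (Ξ L) t : ℝ) ≤ (2 + η) * ρ₀ * L ^ 2 / log t := by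
  have hr := h.r0
  -- we may assume `η ≤ 1`
  wlog hη1 : η ≤ 1 generalizing η
  · obtain ⟨T, hT, hh⟩ := this one_pos le_rfl
    push Not at hη1
    refine ⟨T, hT, fun t ht => ?_⟩
    filter_upwards [hh t ht] with L hL
    have hlt : 0 < log t := log_pos (hT.trans_le ht)
    refine ⟨le_trans ?_ hL.1, hL.2.trans ?_⟩
    · gcongr
    · gcongr
  set δ := η / 4 with hδ
  have hδ0 : 0 < δ := by positivity
  have hδ1 : δ ≤ 1 / 4 := by rw [hδ]; linarith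
  set ε := η * ρ₀ * δ / 4 with hεd
  have hε : 0 < ε := by positivity
  obtain ⟨T, hT, h2⟩ := two_radii hΞ h hK hε
  have hT0 : 0 < T := by linarith
  refine ⟨T ^ (1 + δ), one_lt_rpow hT (by positivity), fun t ht => ?_⟩
  have ht1 : 1 < t := (one_lt_rpow hT (by positivity)).trans_le ht
  have ht0 : 0 < t := by linarith
  have hlt : 0 < log t := log_pos ht1
  have hTt : T ≤ t := by
    refine le_trans ?_ ht
    nth_rw 1 [← rpow_one T]
    exact rpow_le_rpow_of_exponent_le hT.le (by linarith)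
  -- the smaller radius
  have hR1 : T ≤ t ^ (1 / (1 + δ)) := by
    have := rpow_le_rpow (by positivity) ht (show 0 ≤ 1 / (1 + δ) by positivity)
    rwa [← rpow_mul hT0.le, mul_one_div_cancel (by positivity), rpow_one] at this
  have hR2 : t ^ (1 / (1 + δ)) < t := by
    nth_rw 2 [← rpow_one t]
    exact rpow_lt_rpow_of_exponent_lt ht1 (by rw [div_lt_one (by positivity)]; linarith)
  have hR3 : t < t ^ (1 + δ) := by
    nth_rw 1 [← rpow_one t]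
    exact rpow_lt_rpow_of_exponent_lt ht1 (by linarith)
  have l1 : log (t ^ (1 / (1 + δ))) = log t / (1 + δ) := by
    rw [log_rpow ht0]; ring
  have l2 : log (t ^ (1 + δ)) = (1 + δ) * log t := log_rpow ht0 _
  filter_upwards [h2 _ _ hR1 hR2, h2 _ _ hTt hR3, eventually_gt_atTop 0] with L a1 a2 a3
  have hL : 0 < L ^ 2 := by positivity
  have u := a1.1
  have l := a2.2
  rw [log_div ht0.ne' (by positivity), l1] at u
  rw [log_div (by positivity) ht0.ne', l2] at l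
  have q1 : log t / (log t / (1 + δ)) = 1 + δ := by field_simp
  have q2 : (1 + δ) * log t / log t = 1 + δ := by field_simp
  rw [q1] at u
  rw [q2] at l
  have g1 : log (1 + δ) ≤ δ := by
    have := log_le_sub_one_of_pos (show 0 < 1 + δ by positivity)
    linarith
  have g2 : δ * (1 - δ) ≤ log (1 + δ) := by
    have := one_sub_inv_le_log_of_pos (show 0 < 1 + δ by positivity)
    refine le_trans ?_ this
    have : 1 - (1 + δ)⁻¹ = δ / (1 + δ) := by field_simp; ring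
    rw [this, le_div_iff₀ (by positivity)]
    have h0 : 0 < δ ^ 3 := by positivity
    linarith
  constructor
  · rw [div_le_iff₀ hlt]
    have hl' : L ^ 2 * (2 * ρ₀ * log (1 + δ) - ε) ≤ (nz (Ξ L) t : ℝ) * (δ * log t) := by
      convert l using 2; ring
    have h5 : δ * ((2 - η) * ρ₀ * L ^ 2) ≤ L ^ 2 * (2 * ρ₀ * log (1 + δ) - ε) := by
      have h6 : δ * ((2 - η) * ρ₀) ≤ 2 * ρ₀ * log (1 + δ) - ε := by
        have h7 : 2 * ρ₀ * (δ * (1 - δ)) ≤ 2 * ρ₀ * log (1 + δ) := by gcongr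
        have h8 : δ * ((2 - η) * ρ₀) ≤ 2 * ρ₀ * (δ * (1 - δ)) - ε := by
          have h9 : 2 * ρ₀ * (δ * (1 - δ)) - ε - δ * ((2 - η) * ρ₀) = δ * ρ₀ * (η / 4) := by
            rw [hεd, hδ]; ring
          have h10 : 0 < δ * ρ₀ * (η / 4) := by positivity
          linarith
        linarith
      calc δ * ((2 - η) * ρ₀ * L ^ 2) = L ^ 2 * (δ * ((2 - η) * ρ₀)) := by ring
        _ ≤ _ := by gcongr
    have h9 : δ * ((2 - η) * ρ₀ * L ^ 2) ≤ δ * ((nz (Ξ L) t : ℝ) * log t) := by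
      refine (h5.trans hl').trans (le_of_eq (by ring))
    exact le_of_mul_le_mul_left h9 hδ0
  · rw [le_div_iff₀ hlt]
    have hu' : (nz (Ξ L) t : ℝ) * (δ * log t) ≤ (1 + δ) * (L ^ 2 * (2 * ρ₀ * log (1 + δ) + ε)) := by
      have : (nz (Ξ L) t : ℝ) * (δ * log t) =
          (1 + δ) * ((nz (Ξ L) t : ℝ) * (log t - log t / (1 + δ))) := by
        field_simp; ring
      rw [this]
      gcongr
    have h5 : (1 + δ) * (L ^ 2 * (2 * ρ₀ * log (1 + δ) + ε)) ≤ δ * ((2 + η) * ρ₀ * L ^ 2) := by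
      have h6 : (1 + δ) * (2 * ρ₀ * log (1 + δ) + ε) ≤ δ * ((2 + η) * ρ₀) := by
        have h7 : 2 * ρ₀ * log (1 + δ) ≤ 2 * ρ₀ * δ := by gcongr
        have h8 : (1 + δ) * (2 * ρ₀ * δ + ε) ≤ δ * ((2 + η) * ρ₀) := by
          have h9 : (1 + δ) * (2 * ρ₀ * δ + ε) = δ * ρ₀ * ((1 + δ) * (2 + η / 4)) := by
            rw [hεd]; ring
          rw [h9]
          have h10 : (1 + δ) * (2 + η / 4) ≤ 2 + η := by
            rw [hδ]
            have := mul_nonneg hη.le (sub_nonneg.2 hη1)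
            linarith
          calc δ * ρ₀ * ((1 + δ) * (2 + η / 4)) ≤ δ * ρ₀ * (2 + η) := by gcongr
            _ = _ := by ring
        refine le_trans ?_ h8
        gcongr
      calc (1 + δ) * (L ^ 2 * (2 * ρ₀ * log (1 + δ) + ε)) =
            L ^ 2 * ((1 + δ) * (2 * ρ₀ * log (1 + δ) + ε)) := by ring
        _ ≤ L ^ 2 * (δ * ((2 + η) * ρ₀)) := by gcongr
        _ = _ := by ring
    have h9 : δ * ((nz (Ξ L) t : ℝ) * log t) ≤ δ * ((2 + η) * ρ₀ * L ^ 2) := by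
      refine le_trans (le_of_eq (by ring)) (hu'.trans h5)
    exact le_of_mul_le_mul_left h9 hδ0

end xi

end Pool.Agent.J4.H99.LY
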