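import Mathlib

/-!
# Zeros of large modulus of polynomials with nonnegative coefficients
-/

set_option autoImplicit false

open Polynomial Real

namespace Pool.Agent.J4.H99.LY

open Classical in
/-- number of zeros, with multiplicity, of modulus larger than `t` -/
noncomputable def nz (P : ℂ[X]) (t : ℝ) : ℕ := (P.roots.filter fun w => t < ‖w‖).card

/-- logarithm of the Mahler measure of `P (R z) / R ^ deg P` -/
noncomputable def G (P : ℂ[X]) (R : ℝ) : ℝ :=
  log (P.scaleRoots ((R⁻¹ : ℝ) : ℂ)).mahlerMeasure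

lemma G_eq (P : ℂ[X]) {R : ℝ} (hR : 0 < R) :
    G P R = log ‖P.leadingCoeff‖ + (P.roots.map fun a => log⁺ (‖a‖ / R)).sum := by
  have hu : IsUnit (((R⁻¹ : ℝ) : ℂ)) := by
    rw [isUnit_iff_ne_zero]
    exact_mod_cast (inv_pos.2 hR).ne'
  unfold G
  rw [← logMahlerMeasure_eq_log_MahlerMeasure,
    logMahlerMeasure_eq_log_leadingCoeff_add_sum_log_roots, leadingCoeff_scaleRoots,
    roots_scaleRoots _ hu, Multiset.map_map]
  congr 3
  ext a
  simp only [Function.comp_apply, norm_mul, Complex.norm_real, Real.norm_eq_abs, abs_inv,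
    abs_of_pos hR]
  rw [inv_mul_eq_div]

/-- the terms -/
lemma term_le {x R R' : ℝ} (hx : 0 ≤ x) (hR : 0 < R) (h : R < R') :
    (if R' < x then log (R' / R) else 0) ≤ log⁺ (x / R) - log⁺ (x / R') ∧
    log⁺ (x / R) - log⁺ (x / R') ≤ (if R < x then log (R' / R) else 0) := by
  have hR' : 0 < R' := hR.trans h
  have hlog : 0 ≤ log (R' / R) := log_nonneg (by rw [le_div_iff₀ hR]; linarith)
  rcases lt_or_ge R' x with h1 | h1
  · have h2 : R < x := h.trans h1
    have h3 : 0 < x := hR.trans h2
    rw [if_pos h1, if_pos h2, posLog_eq_log, posLog_eq_log, log_div h3.ne' hR.ne',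
      log_div h3.ne' hR'.ne', log_div hR'.ne' hR.ne']
    · constructor <;> linarith
    · rw [abs_of_pos (by positivity), le_div_iff₀ hR']; linarith
    · rw [abs_of_pos (by positivity), le_div_iff₀ hR]; linarith
  · rw [if_neg (not_lt.2 h1)]
    have h4 : log⁺ (x / R') = 0 := by
      rw [posLog_eq_zero_iff, abs_of_nonneg (by positivity), div_le_one hR']
      exact h1
    rw [h4, sub_zero]
    refine ⟨posLog_nonneg, ?_⟩
    rcases lt_or_ge R x with h2 | h2
    · rw [if_pos h2, posLog_eq_log]
      · have h3 : 0 < x := hR.trans h2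
        exact log_le_log (by positivity) (by gcongr)
      · rw [abs_of_nonneg (by positivity), le_div_iff₀ hR]; linarith
    · rw [if_neg (not_lt.2 h2)]
      refine le_of_eq ?_
      rw [posLog_eq_zero_iff, abs_of_nonneg (by positivity), div_le_one hR]
      exact h2

lemma sum_ite (s : Multiset ℂ) (c t : ℝ) :
    (s.map fun a => if t < ‖a‖ then c else 0).sum =
      ((s.filter fun w => t < ‖w‖).card : ℝ) * c := by
  classical
  induction s using Multiset.induction_on with
  | empty => simp
  | cons a s ih =>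
    rw [Multiset.map_cons, Multiset.sum_cons, ih, Multiset.filter_cons]
    by_cases h : t < ‖a‖
    · simp [h]; ring
    · simp [h]

lemma G_sub (P : ℂ[X]) {R R' : ℝ} (hR : 0 < R) (h : R < R') :
    (nz P R' : ℝ) * log (R' / R) ≤ G P R - G P R' ∧
    G P R - G P R' ≤ (nz P R : ℝ) * log (R' / R) := by
  classical
  have hR' : 0 < R' := hR.trans h
  have e : G P R - G P R' = (P.roots.map fun a => log⁺ (‖a‖ / R) - log⁺ (‖a‖ / R')).sum := by
    rw [G_eq P hR, G_eq P hR', Multiset.sum_map_sub]
    ring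
  rw [e]
  unfold nz
  constructor
  · have := Multiset.sum_map_le_sum_map (s := P.roots)
      (fun a => if R' < ‖a‖ then log (R' / R) else 0)
      (fun a => log⁺ (‖a‖ / R) - log⁺ (‖a‖ / R')) fun a _ => (term_le (norm_nonneg a) hR h).1
    rw [sum_ite] at this
    convert this
  · have := Multiset.sum_map_le_sum_map (s := P.roots)
      (fun a => log⁺ (‖a‖ / R) - log⁺ (‖a‖ / R'))
      (fun a => if R < ‖a‖ then log (R' / R) else 0) fun a _ => (term_le (norm_nonneg a) hR h).2
    rw [sum_ite] at this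
    convert this

section coeff

variable {P : ℂ[X]} {c : ℕ → ℝ} (hc : ∀ k, P.coeff k = c k) (hc0 : ∀ k, 0 ≤ c k)
include hc hc0

lemma norm_coeff_scale {R : ℝ} (hR : 0 < R) (k : ℕ) (hk : k ≤ P.natDegree) :
    ‖(P.scaleRoots ((R⁻¹ : ℝ) : ℂ)).coeff k‖ = c k * R ^ k / R ^ P.natDegree := by
  rw [coeff_scaleRoots, hc, norm_mul, norm_pow, Complex.norm_real, Complex.norm_real,
    Real.norm_eq_abs, Real.norm_eq_abs, abs_of_nonneg (hc0 k), abs_of_pos (inv_pos.2 hR), inv_pow]
  have e : R ^ P.natDegree = R ^ (P.natDegree - k) * R ^ k := by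
    rw [← pow_add]
    congr 1
    omega
  rw [e]
  field_simp

lemma G_le {R : ℝ} (hR : 0 < R) {k : ℕ} (hk : 0 < c k) :
    G P R ≤ log (∑ j ∈ Finset.range (P.natDegree + 1), c j * R ^ j) - P.natDegree * log R := by
  have hP : P ≠ 0 := by
    rintro rfl
    have := hc k
    rw [coeff_zero] at this
    have h2 : c k = 0 := by exact_mod_cast this.symm
    exact hk.ne' h2
  have hkn : k ≤ P.natDegree := by
    apply le_natDegree_of_ne_zero
    rw [hc]
    exact_mod_cast hk.ne'
  have h1 := mahlerMeasure_le_sum_norm_coeff (P.scaleRoots ((R⁻¹ : ℝ) : ℂ))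
  rw [sum_over_range _ (by simp), natDegree_scaleRoots] at h1
  have h2 : ∑ j ∈ Finset.range (P.natDegree + 1), ‖(P.scaleRoots ((R⁻¹ : ℝ) : ℂ)).coeff j‖ =
      (∑ j ∈ Finset.range (P.natDegree + 1), c j * R ^ j) / R ^ P.natDegree := by
    rw [Finset.sum_div]
    exact Finset.sum_congr rfl fun j hj =>
      norm_coeff_scale hc hc0 hR j (by simpa [Nat.lt_succ_iff] using hj)
  rw [h2] at h1
  have hpos : 0 < ∑ j ∈ Finset.range (P.natDegree + 1), c j * R ^ j := by
    refine Finset.sum_pos' (fun j _ => mul_nonneg (hc0 j) (by positivity)) ⟨k, ?_, by positivity⟩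
    simp; omega
  have hm := mahlerMeasure_pos_of_ne_zero (scaleRoots_ne_zero hP ((R⁻¹ : ℝ) : ℂ))
  have h3 := log_le_log hm h1
  rw [log_div hpos.ne' (by positivity), log_pow] at h3
  exact h3

lemma le_G {R : ℝ} (hR : 0 < R) {k : ℕ} (hk : 0 < c k) :
    log (c k * R ^ k) - log (P.natDegree.choose k) - P.natDegree * log R ≤ G P R := by
  have hkn : k ≤ P.natDegree := by
    apply le_natDegree_of_ne_zero
    rw [hc]
    exact_mod_cast hk.ne'
  have h1 := norm_coeff_le_choose_mul_mahlerMeasure k (P.scaleRoots ((R⁻¹ : ℝ) : ℂ))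
  rw [natDegree_scaleRoots, norm_coeff_scale hc hc0 hR k hkn] at h1
  have hch : (0 : ℝ) < P.natDegree.choose k := by exact_mod_cast Nat.choose_pos hkn
  have hlhs : 0 < c k * R ^ k / R ^ P.natDegree := by positivity
  have hm : 0 < (P.scaleRoots ((R⁻¹ : ℝ) : ℂ)).mahlerMeasure := by
    by_contra hcon
    push Not at hcon
    have := mul_nonpos_of_nonneg_of_nonpos hch.le hcon
    linarith
  have h3 := log_le_log hlhs h1
  rw [log_div (by positivity) (by positivity), log_pow, log_mul hch.ne' hm.ne'] at h3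
  unfold G
  linarith

/-- **Upper bound** for the number of zeros of modulus larger than `R'`. -/
theorem nz_le {R R' : ℝ} (hR : 0 < R) (h : R < R') {k : ℕ} (hk : 0 < c k) :
    (nz P R' : ℝ) * log (R' / R) ≤
      log (∑ j ∈ Finset.range (P.natDegree + 1), c j * R ^ j) - log (c k * R' ^ k) +
        log (P.natDegree.choose k) + P.natDegree * log (R' / R) := by
  have h1 := (G_sub P hR h).1
  have h2 := G_le hc hc0 hR hk
  have h3 := le_G hc hc0 (hR.trans h) hk
  have h4 : log (R' / R) = log R' - log R := log_div (hR.trans h).ne' hR.ne'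
  have h5 : (P.natDegree : ℝ) * log (R' / R) = P.natDegree * log R' - P.natDegree * log R := by
    rw [h4]; ring
  linarith

/-- **Lower bound** for the number of zeros of modulus larger than `R`. -/
theorem le_nz {R R' : ℝ} (hR : 0 < R) (h : R < R') {k : ℕ} (hk : 0 < c k) :
    log (c k * R ^ k) - log (P.natDegree.choose k) -
      log (∑ j ∈ Finset.range (P.natDegree + 1), c j * R' ^ j) + P.natDegree * log (R' / R) ≤
      (nz P R : ℝ) * log (R' / R) := by
  have h1 := (G_sub P hR h).2
  have h2 := G_le hc hc0 (hR.trans h) hk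
  have h3 := le_G hc hc0 hR hk
  have h4 : log (R' / R) = log R' - log R := log_div (hR.trans h).ne' hR.ne'
  have h5 : (P.natDegree : ℝ) * log (R' / R) = P.natDegree * log R' - P.natDegree * log R := by
    rw [h4]; ring
  linarith

end coeff

end Pool.Agent.J4.H99.LY
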